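import Mathlib

/-!
# MP_f011a7_co, one-sided up-sets: the order of the states
-/

set_option autoImplicit false

namespace Pool.Agent.H.MP_f011a7_co.One

open Finset

/-- `A` is higher than `B`: below every `p` it has at most as many elements. -/
def Hi (A B : Finset ℕ) : Prop := ∀ p, (A.filter (· < p)).card ≤ (B.filter (· < p)).card

theorem Hi.rfl' (A : Finset ℕ) : Hi A A := fun _ => le_rfl

theorem Hi.trans {A B C : Finset ℕ} (h1 : Hi A B) (h2 : Hi B C) : Hi A C :=
  fun p => (h1 p).trans (h2 p)

theorem Hi_subset {A B : Finset ℕ} (h : A ⊆ B) : Hi A B :=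
  fun _ => Finset.card_le_card (Finset.filter_subset_filter _ h)

theorem filter_all {A : Finset ℕ} {p : ℕ} (h : ∀ x ∈ A, x < p) : A.filter (· < p) = A :=
  Finset.filter_true_of_mem h

theorem Hi.card {A B : Finset ℕ} (h : Hi A B) : A.card ≤ B.card := by
  obtain ⟨p, hp⟩ : ∃ p, ∀ x ∈ A ∪ B, x < p :=
    ⟨(A ∪ B).sup id + 1, fun x hx => Nat.lt_succ_of_le (Finset.le_sup (f := id) hx)⟩
  have h1 := h p
  rwa [filter_all (fun x hx => hp x (Finset.mem_union_left _ hx)),
    filter_all (fun x hx => hp x (Finset.mem_union_right _ hx))] at h1

theorem card_filter_insert {W : Finset ℕ} {x : ℕ} (hx : x ∉ W) (p : ℕ) :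
    ((insert x W).filter (· < p)).card = (W.filter (· < p)).card + if x < p then 1 else 0 := by
  rw [Finset.filter_insert]
  split_ifs with h
  · rw [Finset.card_insert_of_notMem]
    intro h2
    exact hx (Finset.mem_filter.1 h2).1
  · rfl

theorem Hi_replace {W : Finset ℕ} {a b : ℕ} (hab : a ≤ b) (ha : a ∉ W) (hb : b ∉ W) :
    Hi (insert b W) (insert a W) := by
  intro p
  rw [card_filter_insert ha, card_filter_insert hb]
  split_ifs <;> omega

theorem Hi_insert_both {A B : Finset ℕ} (h : Hi A B) {q : ℕ} (hA : q ∉ A) (hB : q ∉ B) :
    Hi (insert q A) (insert q B) := by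
  intro p
  rw [card_filter_insert hA, card_filter_insert hB]
  exact Nat.add_le_add_right (h p) _

theorem card_filter_erase {B : Finset ℕ} {x : ℕ} (hx : x ∈ B) (p : ℕ) :
    (B.filter (· < p)).card = ((B.erase x).filter (· < p)).card + if x < p then 1 else 0 := by
  have h := card_filter_insert (Finset.notMem_erase x B) p
  rwa [Finset.insert_erase hx] at h

/-- the order is generated by removing the largest element and by replacing one element by a
larger one -/
theorem Hi_ind {q : ℕ} (R : Finset ℕ → Finset ℕ → Prop) (hrefl : ∀ A, R A A)
    (htrans : ∀ A B C, A ⊆ range q → B ⊆ range q → C ⊆ range q → R A B → R B C →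
      A.card ≤ B.card → B.card ≤ C.card → R A C)
    (h1 : ∀ X m, X ⊆ range q → m < q → (∀ x ∈ X, x < m) → R X (insert m X))
    (h2 : ∀ W a b, a < b → b < q → W ⊆ range q → a ∉ W → b ∉ W → R (insert b W) (insert a W)) :
    ∀ (k : ℕ) (A B : Finset ℕ), ∑ x ∈ B, (q - x) ≤ k → A ⊆ range q → B ⊆ range q → Hi A B →
      R A B := by
  intro k
  induction k with
  | zero =>
    intro A B hk hA hB h
    have hB0 : B = ∅ := by
      rw [Finset.eq_empty_iff_forall_notMem]
      intro x hx
      have h3 : q - x ≤ ∑ x ∈ B, (q - x) :=
        Finset.single_le_sum (f := fun x => q - x) (fun _ _ => Nat.zero_le _) hx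
      have h4 := Finset.mem_range.1 (hB hx)
      omega
    have hA0 : A = ∅ := by
      have := h.card
      rw [hB0, Finset.card_empty] at this
      exact Finset.card_eq_zero.1 (by omega)
    rw [hA0, hB0]
    exact hrefl _
  | succ k ih =>
    intro A B hk hA hB h
    by_cases hAB : A = B
    · rw [hAB]; exact hrefl _
    rcases Nat.lt_or_ge A.card B.card with hc | hc
    · -- remove the maximum
      have hne : B.Nonempty := Finset.card_pos.1 (by omega)
      obtain ⟨m, hm, hmax⟩ : ∃ m ∈ B, ∀ x ∈ B, x ≤ m :=
        ⟨B.max' hne, Finset.max'_mem _ _, fun x hx => Finset.le_max' _ _ hx⟩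
      have hmq := Finset.mem_range.1 (hB hm)
      have hsub : B.erase m ⊆ range q := (Finset.erase_subset _ _).trans hB
      have hlt : ∀ x ∈ B.erase m, x < m := by
        intro x hx
        rw [Finset.mem_erase] at hx
        exact lt_of_le_of_ne (hmax x hx.2) hx.1
      have e1 := h1 (B.erase m) m hsub hmq hlt
      rw [Finset.insert_erase hm] at e1
      have hsum : ∑ x ∈ B.erase m, (q - x) + (q - m) = ∑ x ∈ B, (q - x) :=
        Finset.sum_erase_add _ _ hm
      have hcard : (B.erase m).card + 1 = B.card := Finset.card_erase_add_one hm
      have hHi : Hi A (B.erase m) := by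
        intro p
        have e2 := card_filter_erase hm p
        have e3 := h p
        by_cases hp : m < p
        · rw [if_pos hp] at e2
          have e4 : B.filter (· < p) = B := filter_all fun x hx => lt_of_le_of_lt (hmax x hx) hp
          rw [e4] at e2
          have e5 : (A.filter (· < p)).card ≤ A.card := Finset.card_filter_le _ _
          omega
        · rw [if_neg hp] at e2
          omega
      exact htrans A (B.erase m) B hA hsub hB (ih A (B.erase m) (by omega) hA hsub hHi) e1 hHi.card (by omega)
    · have hcard : A.card = B.card := le_antisymm h.card hc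
      have hne : ((A \ B) ∪ (B \ A)).Nonempty := by
        rw [Finset.nonempty_iff_ne_empty]
        intro h3
        apply hAB
        have h4 : A \ B = ∅ ∧ B \ A = ∅ := Finset.union_eq_empty.1 h3
        exact Finset.Subset.antisymm (Finset.sdiff_eq_empty_iff_subset.1 h4.1)
          (Finset.sdiff_eq_empty_iff_subset.1 h4.2)
      obtain ⟨b, hb, hbmax⟩ : ∃ b ∈ (A \ B) ∪ (B \ A), ∀ x ∈ (A \ B) ∪ (B \ A), x ≤ b :=
        ⟨_, Finset.max'_mem _ hne, fun x hx => Finset.le_max' _ _ hx⟩
      have habove : ∀ x, b < x → (x ∈ A ↔ x ∈ B) := by
        intro x hx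
        constructor
        · intro hxA
          by_contra hxB
          have := hbmax x (Finset.mem_union_left _ (Finset.mem_sdiff.2 ⟨hxA, hxB⟩))
          omega
        · intro hxB
          by_contra hxA
          have := hbmax x (Finset.mem_union_right _ (Finset.mem_sdiff.2 ⟨hxB, hxA⟩))
          omega
      have hup : (A.filter (fun x => ¬ x < b + 1)) = (B.filter (fun x => ¬ x < b + 1)) := by
        ext x
        rw [Finset.mem_filter, Finset.mem_filter]
        constructor
        · rintro ⟨h3, h4⟩
          exact ⟨(habove x (by omega)).1 h3, h4⟩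
        · rintro ⟨h3, h4⟩
          exact ⟨(habove x (by omega)).2 h3, h4⟩
      have hA2 := Finset.card_filter_add_card_filter_not (s := A) (fun x => x < b + 1)
      have hB2 := Finset.card_filter_add_card_filter_not (s := B) (fun x => x < b + 1)
      rw [hup] at hA2
      have hlow : (A.filter (· < b + 1)).card = (B.filter (· < b + 1)).card := by omega
      have hstep : ∀ S : Finset ℕ, (S.filter (· < b + 1)).card =
          (S.filter (· < b)).card + if b ∈ S then 1 else 0 := by
        intro S
        have e : S.filter (· < b + 1) = S.filter (· < b) ∪ S.filter (· = b) := by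
          ext x
          simp only [Finset.mem_filter, Finset.mem_union]
          constructor
          · rintro ⟨h3, h4⟩
            rcases Nat.lt_or_ge x b with h5 | h5
            · exact Or.inl ⟨h3, h5⟩
            · exact Or.inr ⟨h3, by omega⟩
          · rintro (⟨h3, h4⟩ | ⟨h3, h4⟩)
            · exact ⟨h3, by omega⟩
            · exact ⟨h3, by omega⟩
        rw [e, Finset.card_union_of_disjoint]
        · congr 1
          split_ifs with hbS
          · have : S.filter (· = b) = {b} := by
              ext x; simp only [Finset.mem_filter, Finset.mem_singleton]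
              constructor
              · rintro ⟨_, h4⟩; exact h4
              · rintro rfl; exact ⟨hbS, rfl⟩
            rw [this, Finset.card_singleton]
          · rw [Finset.card_eq_zero, Finset.filter_eq_empty_iff]
            rintro x hx rfl
            exact hbS hx
        · rw [Finset.disjoint_filter]
          intro x _ h3 h4
          omega
      have sA := hstep A
      have sB := hstep B
      have hb3 : b ∈ A ∧ b ∉ B := by
        rcases Finset.mem_union.1 hb with h3 | h3
        · exact Finset.mem_sdiff.1 h3
        · exfalso
          rw [Finset.mem_sdiff] at h3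
          rw [if_neg h3.2] at sA
          rw [if_pos h3.1] at sB
          have := h b
          omega
      rw [if_pos hb3.1] at sA
      rw [if_neg hb3.2] at sB
      have hBne : (B.filter (· < b)).Nonempty := Finset.card_pos.1 (by omega)
      obtain ⟨a, ha, hamax⟩ : ∃ a ∈ B.filter (· < b), ∀ x ∈ B.filter (· < b), x ≤ a :=
        ⟨_, Finset.max'_mem _ hBne, fun x hx => Finset.le_max' _ _ hx⟩
      rw [Finset.mem_filter] at ha
      have hbq : b < q := Finset.mem_range.1 (hA hb3.1)
      have hsub : B.erase a ⊆ range q := (Finset.erase_subset _ _).trans hB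
      have hbn : b ∉ B.erase a := fun h3 => hb3.2 (Finset.mem_of_mem_erase h3)
      have e1 := h2 (B.erase a) a b ha.2 hbq hsub (Finset.notMem_erase _ _) hbn
      rw [Finset.insert_erase ha.1] at e1
      have hsub1 : insert b (B.erase a) ⊆ range q :=
        Finset.insert_subset (Finset.mem_range.2 hbq) hsub
      have hsum : ∑ x ∈ B.erase a, (q - x) + (q - a) = ∑ x ∈ B, (q - x) :=
        Finset.sum_erase_add _ _ ha.1
      have hsum1 : ∑ x ∈ insert b (B.erase a), (q - x) = (q - b) + ∑ x ∈ B.erase a, (q - x) :=
        Finset.sum_insert hbn
      have hcard1 : (B.erase a).card + 1 = B.card := Finset.card_erase_add_one ha.1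
      have hcard2 : (insert b (B.erase a)).card = (B.erase a).card + 1 :=
        Finset.card_insert_of_notMem hbn
      have hHi : Hi A (insert b (B.erase a)) := by
        intro p
        have e2 := card_filter_erase ha.1 p
        have e3 := card_filter_insert hbn p
        have e4 := h p
        rw [e3]
        by_cases hp1 : a < p
        · by_cases hp2 : b < p
          · rw [if_pos hp1] at e2
            rw [if_pos hp2]
            omega
          · rw [if_pos hp1] at e2
            rw [if_neg hp2]
            have e5 : B.filter (· < p) = B.filter (· < b) := by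
              ext x
              simp only [Finset.mem_filter]
              constructor
              · rintro ⟨h3, h4⟩
                exact ⟨h3, by omega⟩
              · rintro ⟨h3, h4⟩
                have := hamax x (Finset.mem_filter.2 ⟨h3, h4⟩)
                exact ⟨h3, by omega⟩
            rw [e5] at e2
            have e6 : (A.filter (· < p)).card ≤ (A.filter (· < b)).card := by
              apply Finset.card_le_card
              intro x hx
              rw [Finset.mem_filter] at hx ⊢
              exact ⟨hx.1, by omega⟩
            omega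
        · rw [if_neg hp1] at e2
          rw [if_neg (by omega)]
          omega
      exact htrans A _ B hA hsub1 hB (ih A _ (by omega) hA hsub1 hHi) e1 hHi.card (by omega)

end Pool.Agent.H.MP_f011a7_co.One
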