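import Pool.Agent.H.MP_f011a7_co.One.Zf
import Pool.Agent.H.MP_f011a7_co.One.Ord

/-!
# MP_f011a7_co, one-sided up-sets: the chain of the open positions and its monotonicity
-/

set_option autoImplicit false

namespace Pool.Agent.H.MP_f011a7_co.One

open Finset

/-- the path `P` with the state `X` after the site `q` -/
def st (P : ℕ → Finset ℕ) (q : ℕ) (X : Finset ℕ) : ℕ → Finset ℕ := Function.update P (q + 1) X

theorem st_self (P : ℕ → Finset ℕ) (q : ℕ) (X : Finset ℕ) : st P q X (q + 1) = X := by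
  simp [st]

theorem st_ne (P : ℕ → Finset ℕ) {q r : ℕ} (X : Finset ℕ) (h : r ≠ q + 1) : st P q X r = P r := by
  simp [st, h]

/-- weighted sum of `ψ` over the completions of the state `P q`, with `N` sites left -/
noncomputable def EU (t : ℝ) (ψ : (ℕ → Finset ℕ) → ℝ) : ℕ → ℕ → (ℕ → Finset ℕ) → ℝ
  | 0, q, P => if P q = ∅ then ψ P else 0
  | N + 1, q, P =>
    EU t ψ N (q + 1) (st P q (insert q (P q))) +
    ((P q).card + t) * EU t ψ N (q + 1) (st P q (P q)) +
    ∑ g ∈ P q, (EU t ψ N (q + 1) (st P q (insert q ((P q).erase g))) +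
      (P q).card * EU t ψ N (q + 1) (st P q ((P q).erase g)))

/-- the path `P` is higher than `P'` -/
def PHi (P P' : ℕ → Finset ℕ) : Prop := ∀ q, Hi (P q) (P' q)

theorem PHi.rfl' (P : ℕ → Finset ℕ) : PHi P P := fun _ => Hi.rfl' _

theorem PHi.trans {P Q R : ℕ → Finset ℕ} (h1 : PHi P Q) (h2 : PHi Q R) : PHi P R :=
  fun q => (h1 q).trans (h2 q)

theorem PHi_update {P P' : ℕ → Finset ℕ} (h : PHi P P') (r : ℕ) {X Y : Finset ℕ} (hXY : Hi X Y) :
    PHi (Function.update P r X) (Function.update P' r Y) := by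
  intro s
  by_cases hs : s = r
  · rw [hs, Function.update_self, Function.update_self]; exact hXY
  · rw [Function.update_of_ne hs, Function.update_of_ne hs]; exact h s

theorem PHi_st {P P' : ℕ → Finset ℕ} (h : PHi P P') (q : ℕ) {X Y : Finset ℕ} (hXY : Hi X Y) :
    PHi (st P q X) (st P' q Y) := PHi_update h _ hXY

/-- monotone path functions -/
def MonoP (ψ : (ℕ → Finset ℕ) → ℝ) : Prop := ∀ P P', PHi P P' → ψ P' ≤ ψ P

section

variable {t : ℝ} {ψ : (ℕ → Finset ℕ) → ℝ}

theorem EU_nonneg (ht : 0 ≤ t) (hψ : ∀ P, 0 ≤ ψ P) (N : ℕ) : ∀ q P, 0 ≤ EU t ψ N q P := by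
  induction N with
  | zero =>
    intro q P
    unfold EU
    split_ifs
    · exact hψ P
    · exact le_rfl
  | succ N ih =>
    intro q P
    rw [EU]
    have h1 := ih (q + 1) (st P q (insert q (P q)))
    have h2 := ih (q + 1) (st P q (P q))
    have h3 : 0 ≤ ∑ g ∈ P q, (EU t ψ N (q + 1) (st P q (insert q ((P q).erase g))) +
        (P q).card * EU t ψ N (q + 1) (st P q ((P q).erase g))) :=
      Finset.sum_nonneg fun g _ => by
        have h4 := ih (q + 1) (st P q (insert q ((P q).erase g)))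
        have h5 := ih (q + 1) (st P q ((P q).erase g))
        positivity
    positivity

theorem notMem_of_sub {A : Finset ℕ} {q : ℕ} (h : A ⊆ range q) : q ∉ A := fun h1 =>
  absurd (Finset.mem_range.1 (h h1)) (lt_irrefl q)

theorem sub_succ {A : Finset ℕ} {q : ℕ} (h : A ⊆ range q) : A ⊆ range (q + 1) :=
  h.trans (Finset.range_subset_range.2 (Nat.le_succ q))

theorem insert_sub_succ {A : Finset ℕ} {q : ℕ} (h : A ⊆ range q) : insert q A ⊆ range (q + 1) :=
  Finset.insert_subset (Finset.mem_range.2 (Nat.lt_succ_self q)) (sub_succ h)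

theorem erase_sub {A : Finset ℕ} {q g : ℕ} (h : A ⊆ range q) : A.erase g ⊆ range q :=
  (Finset.erase_subset _ _).trans h

theorem card_ins {A : Finset ℕ} {q : ℕ} (h : A ⊆ range q) : (insert q A).card = A.card + 1 :=
  Finset.card_insert_of_notMem (notMem_of_sub h)

theorem card_ins_erase {A : Finset ℕ} {q g : ℕ} (h : A ⊆ range q) (hg : g ∈ A) :
    (insert q (A.erase g)).card = A.card := by
  rw [card_ins (erase_sub h)]
  exact Finset.card_erase_add_one hg

theorem EU_eq_zero (N : ℕ) : ∀ q P, P q ⊆ range q → N < (P q).card → EU t ψ N q P = 0 := by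
  induction N with
  | zero =>
    intro q P _ hc
    unfold EU
    rw [if_neg]
    intro h
    rw [h, Finset.card_empty] at hc
    omega
  | succ N ih =>
    intro q P hP hc
    rw [EU, ih (q + 1) _ (by rw [st_self]; exact insert_sub_succ hP)
      (by rw [st_self, card_ins hP]; omega),
      ih (q + 1) _ (by rw [st_self]; exact sub_succ hP) (by rw [st_self]; omega)]
    rw [Finset.sum_eq_zero]
    · ring
    · intro g hg
      rw [ih (q + 1) _ (by rw [st_self]; exact insert_sub_succ (erase_sub hP))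
        (by rw [st_self, card_ins_erase hP hg]; omega),
        ih (q + 1) _ (by rw [st_self]; exact sub_succ (erase_sub hP))
        (by rw [st_self, Finset.card_erase_of_mem hg]; omega)]
      ring

theorem EU_one (N : ℕ) : ∀ q P, P q ⊆ range q → EU t (fun _ => 1) N q P = Z t N (P q).card := by
  induction N with
  | zero =>
    intro q P _
    unfold EU
    by_cases h : P q = ∅
    · rw [if_pos h, h, Finset.card_empty, Z_zero_zero]
    · rw [if_neg h, Z_zero_pos t (fun h1 => h (Finset.card_eq_zero.1 h1))]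
  | succ N ih =>
    intro q P hP
    rw [EU, ih (q + 1) _ (by rw [st_self]; exact insert_sub_succ hP),
      ih (q + 1) _ (by rw [st_self]; exact sub_succ hP), st_self, st_self, card_ins hP]
    have h1 : ∑ g ∈ P q, (EU t (fun _ => 1) N (q + 1) (st P q (insert q ((P q).erase g))) +
        (P q).card * EU t (fun _ => 1) N (q + 1) (st P q ((P q).erase g))) =
        ∑ _g ∈ P q, (Z t N (P q).card + (P q).card * Z t N ((P q).card - 1)) := by
      apply Finset.sum_congr rfl
      intro g hg
      rw [ih (q + 1) _ (by rw [st_self]; exact insert_sub_succ (erase_sub hP)),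
        ih (q + 1) _ (by rw [st_self]; exact sub_succ (erase_sub hP)), st_self, st_self,
        card_ins_erase hP hg, Finset.card_erase_of_mem hg]
    rw [h1, Finset.sum_const, nsmul_eq_mul, Z_succ]
    ring

/-- the same state, a higher past -/
theorem EU_same (ht : 0 ≤ t) (hm : MonoP ψ) (N : ℕ) : ∀ q P P', PHi P P' → P q = P' q →
    EU t ψ N q P' ≤ EU t ψ N q P := by
  induction N with
  | zero =>
    intro q P P' h hq
    unfold EU
    rw [hq]
    split_ifs
    · exact hm P P' h
    · exact le_rfl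
  | succ N ih =>
    intro q P P' h hq
    rw [EU, EU, hq]
    have key : ∀ X, EU t ψ N (q + 1) (st P' q X) ≤ EU t ψ N (q + 1) (st P q X) := fun X =>
      ih (q + 1) _ _ (PHi_st h q (Hi.rfl' X)) (by rw [st_self, st_self])
    have h1 := key (insert q (P' q))
    have h2 := key (P' q)
    have h3 : ∑ g ∈ P' q, (EU t ψ N (q + 1) (st P' q (insert q ((P' q).erase g))) +
        (P' q).card * EU t ψ N (q + 1) (st P' q ((P' q).erase g))) ≤
        ∑ g ∈ P' q, (EU t ψ N (q + 1) (st P q (insert q ((P' q).erase g))) +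
        (P' q).card * EU t ψ N (q + 1) (st P q ((P' q).erase g))) :=
      Finset.sum_le_sum fun g _ => add_le_add (key _)
        (mul_le_mul_of_nonneg_left (key _) (Nat.cast_nonneg _))
    have h4 : (((P' q).card : ℝ) + t) * EU t ψ N (q + 1) (st P' q (P' q)) ≤
        (((P' q).card : ℝ) + t) * EU t ψ N (q + 1) (st P q (P' q)) :=
      mul_le_mul_of_nonneg_left h2 (by positivity)
    linarith

/-- the average over the completions -/
noncomputable def av (t : ℝ) (ψ : (ℕ → Finset ℕ) → ℝ) (N q : ℕ) (P : ℕ → Finset ℕ)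
    (X : Finset ℕ) : ℝ := EU t ψ N (q + 1) (st P q X) / Z t N X.card

theorem EU_eq_av (ht : 1 ≤ t) (N q : ℕ) (P : ℕ → Finset ℕ) {X : Finset ℕ}
    (hX : X ⊆ range (q + 1)) : EU t ψ N (q + 1) (st P q X) = Z t N X.card * av t ψ N q P X := by
  unfold av
  rcases Nat.lt_or_ge N X.card with h | h
  · rw [EU_eq_zero N (q + 1) _ (by rw [st_self]; exact hX) (by rw [st_self]; exact h)]
    simp
  · rw [mul_div_cancel₀ _ (Z_pos ht N _ h).ne']

theorem av_nonneg (ht : 1 ≤ t) (hψ : ∀ P, 0 ≤ ψ P) (N q : ℕ) (P : ℕ → Finset ℕ) (X : Finset ℕ) :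
    0 ≤ av t ψ N q P X :=
  div_nonneg (EU_nonneg (by linarith) hψ _ _ _) (Z_nonneg (by linarith) _ _)

/-- monotonicity at the level `N` -/
def MonN (t : ℝ) (ψ : (ℕ → Finset ℕ) → ℝ) (N : ℕ) : Prop :=
  ∀ q P P', PHi P P' → P q ⊆ range q → P' q ⊆ range q →
    EU t ψ N q P' * Z t N (P q).card ≤ EU t ψ N q P * Z t N (P' q).card

theorem av_mono (ht : 1 ≤ t) (hψ : ∀ P, 0 ≤ ψ P) {N : ℕ} (hN : MonN t ψ N) (q : ℕ)
    {P P' : ℕ → Finset ℕ} (h : PHi P P') {X Y : Finset ℕ} (hXY : Hi X Y)
    (hX : X ⊆ range (q + 1)) (hY : Y ⊆ range (q + 1)) : av t ψ N q P' Y ≤ av t ψ N q P X := by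
  rcases Nat.lt_or_ge N Y.card with h1 | h1
  · have h2 : av t ψ N q P' Y = 0 := by
      unfold av
      rw [Z_eq_zero t N _ h1, div_zero]
    rw [h2]
    exact av_nonneg ht hψ _ _ _ _
  · have h2 : X.card ≤ N := hXY.card.trans h1
    have h3 := hN (q + 1) (st P q X) (st P' q Y) (PHi_st h q hXY) (by rw [st_self]; exact hX)
      (by rw [st_self]; exact hY)
    rw [st_self, st_self] at h3
    unfold av
    rw [div_le_div_iff₀ (Z_pos ht N _ h1) (Z_pos ht N _ h2)]
    exact h3

end

end Pool.Agent.H.MP_f011a7_co.One
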