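import Pool.Agent.H.MP_f011a7_co.One.Pa

/-!
# MP_f011a7_co, one-sided up-sets: the joint chain of the open positions and the open values
-/

set_option autoImplicit false

namespace Pool.Agent.H.MP_f011a7_co.One

open Finset

/-- weighted sum of `Φ` over the completions of the state `(P q, Q q)`, with `N` sites left -/
noncomputable def EJ (t : ℝ) (Φ : (ℕ → Finset ℕ) → (ℕ → Finset ℕ) → ℝ) :
    ℕ → ℕ → (ℕ → Finset ℕ) → (ℕ → Finset ℕ) → ℝ
  | 0, q, P, Q => if P q = ∅ ∧ Q q = ∅ then Φ P Q else 0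
  | N + 1, q, P, Q =>
    t * EJ t Φ N (q + 1) (st P q (P q)) (st Q q (Q q)) +
    EJ t Φ N (q + 1) (st P q (insert q (P q))) (st Q q (insert q (Q q))) +
    ∑ g ∈ P q, EJ t Φ N (q + 1) (st P q (insert q ((P q).erase g))) (st Q q (Q q)) +
    ∑ d ∈ Q q, EJ t Φ N (q + 1) (st P q (P q)) (st Q q (insert q ((Q q).erase d))) +
    ∑ g ∈ P q, ∑ d ∈ Q q, EJ t Φ N (q + 1) (st P q ((P q).erase g)) (st Q q ((Q q).erase d))

variable {t : ℝ} {ψ ψ1 ψ2 : (ℕ → Finset ℕ) → ℝ}

theorem EJ_nonneg (ht : 0 ≤ t) {Φ : (ℕ → Finset ℕ) → (ℕ → Finset ℕ) → ℝ}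
    (hΦ : ∀ P Q, 0 ≤ Φ P Q) (N : ℕ) : ∀ q P Q, 0 ≤ EJ t Φ N q P Q := by
  induction N with
  | zero =>
    intro q P Q
    unfold EJ
    split_ifs
    · exact hΦ P Q
    · exact le_rfl
  | succ N ih =>
    intro q P Q
    rw [EJ]
    have h1 := mul_nonneg ht (ih (q + 1) (st P q (P q)) (st Q q (Q q)))
    have h2 := ih (q + 1) (st P q (insert q (P q))) (st Q q (insert q (Q q)))
    have h3 : 0 ≤ ∑ g ∈ P q, EJ t Φ N (q + 1) (st P q (insert q ((P q).erase g)))
        (st Q q (Q q)) := Finset.sum_nonneg fun g _ => ih _ _ _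
    have h4 : 0 ≤ ∑ d ∈ Q q, EJ t Φ N (q + 1) (st P q (P q))
        (st Q q (insert q ((Q q).erase d))) := Finset.sum_nonneg fun g _ => ih _ _ _
    have h5 : 0 ≤ ∑ g ∈ P q, ∑ d ∈ Q q, EJ t Φ N (q + 1) (st P q ((P q).erase g))
        (st Q q ((Q q).erase d)) :=
      Finset.sum_nonneg fun g _ => Finset.sum_nonneg fun d _ => ih _ _ _
    linarith

/-- functions of the open positions -/
theorem EJ_left (N : ℕ) : ∀ q P Q, P q ⊆ range q → Q q ⊆ range q → (P q).card = (Q q).card →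
    EJ t (fun P _ => ψ P) N q P Q = EU t ψ N q P := by
  induction N with
  | zero =>
    intro q P Q _ _ hc
    unfold EJ EU
    by_cases h : P q = ∅
    · have h2 : Q q = ∅ := by
        rw [h, Finset.card_empty] at hc
        exact Finset.card_eq_zero.1 hc.symm
      rw [if_pos ⟨h, h2⟩, if_pos h]
    · rw [if_neg (fun h1 => h h1.1), if_neg h]
  | succ N ih =>
    intro q P Q hP hQ hc
    rw [EJ, EU]
    rw [ih (q + 1) (st P q (P q)) (st Q q (Q q)) (by rw [st_self]; exact sub_succ hP)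
      (by rw [st_self]; exact sub_succ hQ) (by rw [st_self, st_self]; exact hc)]
    rw [ih (q + 1) (st P q (insert q (P q))) (st Q q (insert q (Q q)))
      (by rw [st_self]; exact insert_sub_succ hP) (by rw [st_self]; exact insert_sub_succ hQ)
      (by rw [st_self, st_self, card_ins hP, card_ins hQ, hc])]
    have h3 : ∑ g ∈ P q, EJ t (fun P _ => ψ P) N (q + 1) (st P q (insert q ((P q).erase g)))
        (st Q q (Q q)) = ∑ g ∈ P q, EU t ψ N (q + 1) (st P q (insert q ((P q).erase g))) := by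
      refine Finset.sum_congr rfl fun g hg => ih _ _ _ ?_ ?_ ?_
      · rw [st_self]; exact insert_sub_succ (erase_sub hP)
      · rw [st_self]; exact sub_succ hQ
      · rw [st_self, st_self, card_ins_erase hP hg, hc]
    have h4 : ∑ d ∈ Q q, EJ t (fun P _ => ψ P) N (q + 1) (st P q (P q))
        (st Q q (insert q ((Q q).erase d))) = ∑ _d ∈ Q q, EU t ψ N (q + 1) (st P q (P q)) := by
      refine Finset.sum_congr rfl fun g hg => ih _ _ _ ?_ ?_ ?_
      · rw [st_self]; exact sub_succ hP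
      · rw [st_self]; exact insert_sub_succ (erase_sub hQ)
      · rw [st_self, st_self, card_ins_erase hQ hg, hc]
    have h5 : ∑ g ∈ P q, ∑ d ∈ Q q, EJ t (fun P _ => ψ P) N (q + 1) (st P q ((P q).erase g))
        (st Q q ((Q q).erase d)) =
        ∑ g ∈ P q, ∑ _d ∈ Q q, EU t ψ N (q + 1) (st P q ((P q).erase g)) := by
      refine Finset.sum_congr rfl fun g hg => Finset.sum_congr rfl fun d hd => ih _ _ _ ?_ ?_ ?_
      · rw [st_self]; exact sub_succ (erase_sub hP)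
      · rw [st_self]; exact sub_succ (erase_sub hQ)
      · rw [st_self, st_self, Finset.card_erase_of_mem hg, Finset.card_erase_of_mem hd, hc]
    rw [h3, h4, h5]
    simp only [Finset.sum_const, nsmul_eq_mul, ← hc]
    rw [Finset.sum_add_distrib]
    ring

theorem EJ_swap {Φ : (ℕ → Finset ℕ) → (ℕ → Finset ℕ) → ℝ} (N : ℕ) : ∀ q P Q,
    EJ t Φ N q P Q = EJ t (fun P Q => Φ Q P) N q Q P := by
  induction N with
  | zero =>
    intro q P Q
    unfold EJ
    by_cases h : P q = ∅ ∧ Q q = ∅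
    · rw [if_pos h, if_pos ⟨h.2, h.1⟩]
    · rw [if_neg h, if_neg (fun h1 => h ⟨h1.2, h1.1⟩)]
  | succ N ih =>
    intro q P Q
    rw [EJ, EJ, ih, ih (q + 1) (st P q (insert q (P q)))]
    have h3 : ∑ g ∈ P q, EJ t Φ N (q + 1) (st P q (insert q ((P q).erase g))) (st Q q (Q q)) =
        ∑ g ∈ P q, EJ t (fun P Q => Φ Q P) N (q + 1) (st Q q (Q q))
          (st P q (insert q ((P q).erase g))) := Finset.sum_congr rfl fun g _ => ih _ _ _
    have h4 : ∑ d ∈ Q q, EJ t Φ N (q + 1) (st P q (P q)) (st Q q (insert q ((Q q).erase d))) =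
        ∑ d ∈ Q q, EJ t (fun P Q => Φ Q P) N (q + 1) (st Q q (insert q ((Q q).erase d)))
          (st P q (P q)) := Finset.sum_congr rfl fun g _ => ih _ _ _
    have h5 : ∑ g ∈ P q, ∑ d ∈ Q q, EJ t Φ N (q + 1) (st P q ((P q).erase g))
        (st Q q ((Q q).erase d)) = ∑ d ∈ Q q, ∑ g ∈ P q, EJ t (fun P Q => Φ Q P) N (q + 1)
        (st Q q ((Q q).erase d)) (st P q ((P q).erase g)) := by
      rw [Finset.sum_comm]
      exact Finset.sum_congr rfl fun d _ => Finset.sum_congr rfl fun g _ => ih _ _ _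
    rw [h3, h4, h5]
    ring

/-- the numerical core of the opposite case -/
theorem core_ineq {M z0 z1 z2 h x x' y y' SE SD SE' SD' t : ℝ} (hh : 0 ≤ h) (hz0 : 0 ≤ z0)
    (hz1 : 0 ≤ z1) (hz2 : 0 ≤ z2) (ht : 0 ≤ t)
    (hM : M = (t + 2 * h) * z1 + h ^ 2 * z0 + z2)
    (hk : ((h * z0 + z1) ^ 2 ≤ M * z0) ∨ (SD = 0 ∧ SD' = 0 ∧ SE = 0 ∧ SE' = 0 ∧ h = 0))
    (hy : y ≤ x) (hy' : y' ≤ x') (h1 : h * x ≤ SE) (h1' : h * x' ≤ SE') (h2 : SE ≤ SD)
    (h2' : SE' ≤ SD') :
    (z2 * y + (h + t) * (z1 * x) + (z1 * SE + h * (z0 * SD))) *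
      (z2 * y' + (h + t) * (z1 * x') + (z1 * SE' + h * (z0 * SD'))) ≤
      M * (t * (z1 * (x * x')) + z2 * (y * y') + z1 * (SE * x') + z1 * (x * SE') +
        z0 * (SD * SD')) := by
  obtain ⟨a, ha⟩ : ∃ a, a = SD - h * x := ⟨_, rfl⟩
  obtain ⟨b, hb⟩ : ∃ b, b = SE - h * x := ⟨_, rfl⟩
  obtain ⟨s, hs⟩ : ∃ s, s = x - y := ⟨_, rfl⟩
  obtain ⟨a', ha'⟩ : ∃ a, a = SD' - h * x' := ⟨_, rfl⟩
  obtain ⟨b', hb'⟩ : ∃ b, b = SE' - h * x' := ⟨_, rfl⟩
  obtain ⟨s', hs'⟩ : ∃ s, s = x' - y' := ⟨_, rfl⟩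
  have eSD : SD = a + h * x := by linarith
  have eSE : SE = b + h * x := by linarith
  have ey : y = x - s := by linarith
  have eSD' : SD' = a' + h * x' := by linarith
  have eSE' : SE' = b' + h * x' := by linarith
  have ey' : y' = x' - s' := by linarith
  have b0 : 0 ≤ b := by linarith
  have ba : b ≤ a := by linarith
  have s0 : 0 ≤ s := by linarith
  have b0' : 0 ≤ b' := by linarith
  have ba' : b' ≤ a' := by linarith
  have s0' : 0 ≤ s' := by linarith
  have a0 : 0 ≤ a := b0.trans ba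
  have a0' : 0 ≤ a' := b0'.trans ba'
  obtain ⟨Y, hY⟩ : ∃ Y, Y = h * z0 * a + z1 * b := ⟨_, rfl⟩
  obtain ⟨Y', hY'⟩ : ∃ Y, Y = h * z0 * a' + z1 * b' := ⟨_, rfl⟩
  have Y0 : 0 ≤ Y := by rw [hY]; positivity
  have Y0' : 0 ≤ Y' := by rw [hY']; positivity
  have key : Y * Y' ≤ M * z0 * (a * a') := by
    rcases hk with hk | hk
    · have e1 : Y ≤ (h * z0 + z1) * a := by
        rw [hY]
        have := mul_le_mul_of_nonneg_left ba hz1
        linarith
      have e2 : Y' ≤ (h * z0 + z1) * a' := by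
        rw [hY']
        have := mul_le_mul_of_nonneg_left ba' hz1
        linarith
      have e3 : Y * Y' ≤ ((h * z0 + z1) * a) * ((h * z0 + z1) * a') :=
        mul_le_mul e1 e2 Y0' (by positivity)
      have e4 := mul_le_mul_of_nonneg_right hk (mul_nonneg a0 a0')
      linarith
    · obtain ⟨k1, k2, k3, k4, k5⟩ := hk
      have ea : a = 0 := by rw [ha, k1, k5]; ring
      have ea' : a' = 0 := by rw [ha', k2, k5]; ring
      have eb : b = 0 := by rw [hb, k3, k5]; ring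
      rw [hY, ea, eb]
      simp
  have hM2 : z2 ≤ M := by
    rw [hM]
    have : 0 ≤ (t + 2 * h) * z1 + h ^ 2 * z0 := by positivity
    linarith
  have key2 : z2 ^ 2 * (s * s') ≤ M * z2 * (s * s') := by
    have e1 := mul_le_mul_of_nonneg_right hM2 (mul_nonneg hz2 (mul_nonneg s0 s0'))
    linarith
  have key3 : 0 ≤ z2 * (s * Y' + s' * Y) := by positivity
  rw [eSD, eSE, ey, eSD', eSE', ey']
  have expand : M * (t * (z1 * (x * x')) + z2 * ((x - s) * (x' - s')) +
      z1 * ((b + h * x) * x') + z1 * (x * (b' + h * x')) + z0 * ((a + h * x) * (a' + h * x'))) -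
      (z2 * (x - s) + (h + t) * (z1 * x) + (z1 * (b + h * x) + h * (z0 * (a + h * x)))) *
      (z2 * (x' - s') + (h + t) * (z1 * x') + (z1 * (b' + h * x') + h * (z0 * (a' + h * x')))) =
      (M * z0 * (a * a') - Y * Y') + (M * z2 * (s * s') - z2 ^ 2 * (s * s')) +
        z2 * (s * Y' + s' * Y) := by
    rw [hY, hY', hM]
    ring
  linarith

/-- **The opposite case.** -/
theorem EJ_ul (ht : 1 ≤ t) (h1 : ∀ P, 0 ≤ ψ1 P) (m1 : MonoP ψ1) (h2 : ∀ P, 0 ≤ ψ2 P)
    (m2 : MonoP ψ2) (N : ℕ) : ∀ q P Q, P q ⊆ range q → Q q ⊆ range q →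
    (P q).card = (Q q).card →
    EU t ψ1 N q P * EU t ψ2 N q Q ≤ Z t N (P q).card * EJ t (fun P Q => ψ1 P * ψ2 Q) N q P Q := by
  have ht0 : 0 ≤ t := by linarith
  induction N with
  | zero =>
    intro q P Q _ _ hc
    unfold EU EJ
    by_cases h : P q = ∅
    · have hQ : Q q = ∅ := by
        rw [h, Finset.card_empty] at hc
        exact Finset.card_eq_zero.1 hc.symm
      rw [if_pos h, if_pos hQ, if_pos ⟨h, hQ⟩, h, Finset.card_empty, Z_zero_zero, one_mul]
    · rw [if_neg h, if_neg (show ¬ (P q = ∅ ∧ Q q = ∅) from fun h3 => h h3.1)]; simp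
  | succ N ih =>
    intro q P Q hP hQ hc
    have hnn : ∀ X Y, 0 ≤ EJ t (fun P Q => ψ1 P * ψ2 Q) N (q + 1) (st P q X) (st Q q Y) :=
      fun X Y => EJ_nonneg ht0 (fun P Q => mul_nonneg (h1 P) (h2 Q)) _ _ _ _
    have hge : ∀ X Y, X ⊆ range (q + 1) → Y ⊆ range (q + 1) → X.card = Y.card →
        Z t N X.card * (av t ψ1 N q P X * av t ψ2 N q Q Y) ≤
        EJ t (fun P Q => ψ1 P * ψ2 Q) N (q + 1) (st P q X) (st Q q Y) := by
      intro X Y hX hY hXY
      have e := ih (q + 1) (st P q X) (st Q q Y) (by rw [st_self]; exact hX)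
        (by rw [st_self]; exact hY) (by rw [st_self, st_self]; exact hXY)
      rw [st_self] at e
      rcases Nat.lt_or_ge N X.card with h3 | h3
      · rw [Z_eq_zero t N _ h3, zero_mul]; exact hnn X Y
      · rw [EU_eq_av ht N q P hX, EU_eq_av ht N q Q hY, ← hXY] at e
        have h4 := Z_pos ht N _ h3
        have h5 : Z t N X.card * (Z t N X.card * (av t ψ1 N q P X * av t ψ2 N q Q Y)) ≤
            Z t N X.card * EJ t (fun P Q => ψ1 P * ψ2 Q) N (q + 1) (st P q X) (st Q q Y) := by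
          linarith
        exact le_of_mul_le_mul_left h5 h4
    rw [EU_succ_av ht N q P hP, EU_succ_av ht N q Q hQ, ← hc]
    obtain ⟨h, hh⟩ : ∃ h, h = (P q).card := ⟨_, rfl⟩
    have hh' : h = (Q q).card := hh.trans hc
    have M1 := EU_mono ht h1 m1 N
    have M2 := EU_mono ht h2 m2 N
    have z0 := Z_nonneg ht0 N (h - 1)
    have z1 := Z_nonneg ht0 N h
    have z2 := Z_nonneg ht0 N (h + 1)
    have hh0 : (0 : ℝ) ≤ h := Nat.cast_nonneg h
    have hE : ∀ (χ : (ℕ → Finset ℕ) → ℝ), (∀ P, 0 ≤ χ P) → MonN t χ N →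
        ∀ P : ℕ → Finset ℕ, P q ⊆ range q → ∀ g ∈ P q,
        av t χ N q P (insert q ((P q).erase g)) ≤ av t χ N q P ((P q).erase g) ∧
        av t χ N q P (P q) ≤ av t χ N q P (insert q ((P q).erase g)) := by
      intro χ hχ Mχ P hP g hg
      exact ⟨av_mono ht hχ Mχ q (PHi.rfl' _) (Hi_subset (Finset.subset_insert _ _))
          (sub_succ (erase_sub hP)) (insert_sub_succ (erase_sub hP)),
        av_mono ht hχ Mχ q (PHi.rfl' _) (Hi_erase_insert hP hg)
          (insert_sub_succ (erase_sub hP)) (sub_succ hP)⟩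
    obtain ⟨SE, hSE⟩ : ∃ x, x = ∑ g ∈ P q, av t ψ1 N q P (insert q ((P q).erase g)) := ⟨_, rfl⟩
    obtain ⟨SD, hSD⟩ : ∃ x, x = ∑ g ∈ P q, av t ψ1 N q P ((P q).erase g) := ⟨_, rfl⟩
    obtain ⟨SE', hSE'⟩ : ∃ x, x = ∑ g ∈ Q q, av t ψ2 N q Q (insert q ((Q q).erase g)) := ⟨_, rfl⟩
    obtain ⟨SD', hSD'⟩ : ∃ x, x = ∑ g ∈ Q q, av t ψ2 N q Q ((Q q).erase g) := ⟨_, rfl⟩
    obtain ⟨x, hx⟩ : ∃ x, x = av t ψ1 N q P (P q) := ⟨_, rfl⟩
    obtain ⟨x', hx'⟩ : ∃ x, x = av t ψ2 N q Q (Q q) := ⟨_, rfl⟩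
    obtain ⟨y, hy⟩ : ∃ x, x = av t ψ1 N q P (insert q (P q)) := ⟨_, rfl⟩
    obtain ⟨y', hy'⟩ : ∃ x, x = av t ψ2 N q Q (insert q (Q q)) := ⟨_, rfl⟩
    have i1 : y ≤ x := by
      rw [hx, hy]
      exact av_mono ht h1 M1 q (PHi.rfl' _) (Hi_subset (Finset.subset_insert _ _)) (sub_succ hP)
        (insert_sub_succ hP)
    have i1' : y' ≤ x' := by
      rw [hx', hy']
      exact av_mono ht h2 M2 q (PHi.rfl' _) (Hi_subset (Finset.subset_insert _ _)) (sub_succ hQ)
        (insert_sub_succ hQ)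
    have i2 : (h : ℝ) * x ≤ SE := by
      have e3 : (h : ℝ) * x = ∑ _g ∈ P q, x := by rw [Finset.sum_const, nsmul_eq_mul, ← hh]
      rw [e3, hSE, hx]
      exact Finset.sum_le_sum fun g hg => (hE ψ1 h1 M1 P hP g hg).2
    have i2' : (h : ℝ) * x' ≤ SE' := by
      have e3 : (h : ℝ) * x' = ∑ _g ∈ Q q, x' := by rw [Finset.sum_const, nsmul_eq_mul, ← hh']
      rw [e3, hSE', hx']
      exact Finset.sum_le_sum fun g hg => (hE ψ2 h2 M2 Q hQ g hg).2
    have i3 : SE ≤ SD := by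
      rw [hSE, hSD]
      exact Finset.sum_le_sum fun g hg => (hE ψ1 h1 M1 P hP g hg).1
    have i3' : SE' ≤ SD' := by
      rw [hSE', hSD']
      exact Finset.sum_le_sum fun g hg => (hE ψ2 h2 M2 Q hQ g hg).1
    have hk : (((h : ℝ) * Z t N (h - 1) + Z t N h) ^ 2 ≤ Z t (N + 1) h * Z t N (h - 1)) ∨
        (SD = 0 ∧ SD' = 0 ∧ SE = 0 ∧ SE' = 0 ∧ (h : ℝ) = 0) := by
      rcases Nat.eq_zero_or_pos h with h0 | h0
      · right
        have eP : P q = ∅ := by rw [← Finset.card_eq_zero, ← hh, h0]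
        have eQ : Q q = ∅ := by rw [← Finset.card_eq_zero, ← hh', h0]
        rw [hSD, hSD', hSE, hSE', eP, eQ, h0]
        simp
      · left
        obtain ⟨k, hkk⟩ : ∃ k, h = k + 1 := ⟨h - 1, by omega⟩
        have q1 : Z t (N + 1) h = ((N : ℝ) + 1) * (Z t N h + (h : ℝ) * Z t N (h - 1)) := by
          rw [hkk, Z_close t N k]
          simp only [Nat.add_sub_cancel]
          push_cast
          ring
        have q2 : Z t N h ≤ ((N : ℝ) - (h - 1)) * Z t N (h - 1) := by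
          have := Z_c2 ht N k
          rw [hkk]
          simp only [Nat.add_sub_cancel]
          push_cast
          rw [show ((N : ℝ) - (k + 1 - 1)) = (N : ℝ) - k by ring]
          exact this
        have q3 : (h : ℝ) * Z t N (h - 1) + Z t N h ≤ ((N : ℝ) + 1) * Z t N (h - 1) := by
          linarith
        have q4 : 0 ≤ (h : ℝ) * Z t N (h - 1) + Z t N h := by positivity
        have q5 := mul_le_mul_of_nonneg_left q3 q4
        rw [q1]
        nlinarith
    have fin := core_ineq (M := Z t (N + 1) h) hh0 z0 z1 z2 ht0 (Z_succ t N h) hk i1 i1' i2 i2'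
      i3 i3'
    rw [← hh]
    -- left sides
    have hL : ∀ (χ : (ℕ → Finset ℕ) → ℝ) (P : ℕ → Finset ℕ),
        ∑ g ∈ P q, (Z t N h * av t χ N q P (insert q ((P q).erase g)) +
          (h : ℝ) * (Z t N (h - 1) * av t χ N q P ((P q).erase g))) =
        Z t N h * ∑ g ∈ P q, av t χ N q P (insert q ((P q).erase g)) +
          (h : ℝ) * (Z t N (h - 1) * ∑ g ∈ P q, av t χ N q P ((P q).erase g)) := by
      intro χ P
      rw [Finset.sum_add_distrib, Finset.mul_sum, Finset.mul_sum, Finset.mul_sum]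
    rw [hL ψ1 P, hL ψ2 Q, ← hSE, ← hSD, ← hSE', ← hSD', ← hx, ← hx', ← hy, ← hy']
    refine fin.trans (mul_le_mul_of_nonneg_left ?_ (Z_nonneg ht0 _ _))
    rw [EJ]
    have p1 := hge (P q) (Q q) (sub_succ hP) (sub_succ hQ) hc
    rw [← hh, ← hx, ← hx'] at p1
    have p2 := hge (insert q (P q)) (insert q (Q q)) (insert_sub_succ hP) (insert_sub_succ hQ)
      (by rw [card_ins hP, card_ins hQ, hc])
    rw [card_ins hP, ← hh, ← hy, ← hy'] at p2
    have p3 : Z t N h * (SE * x') ≤ ∑ g ∈ P q, EJ t (fun P Q => ψ1 P * ψ2 Q) N (q + 1)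
        (st P q (insert q ((P q).erase g))) (st Q q (Q q)) := by
      rw [hSE, Finset.sum_mul, Finset.mul_sum]
      refine Finset.sum_le_sum fun g hg => ?_
      have := hge (insert q ((P q).erase g)) (Q q) (insert_sub_succ (erase_sub hP)) (sub_succ hQ)
        (by rw [card_ins_erase hP hg, hc])
      rwa [card_ins_erase hP hg, ← hh, ← hx'] at this
    have p4 : Z t N h * (x * SE') ≤ ∑ d ∈ Q q, EJ t (fun P Q => ψ1 P * ψ2 Q) N (q + 1)
        (st P q (P q)) (st Q q (insert q ((Q q).erase d))) := by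
      rw [hSE', Finset.mul_sum, Finset.mul_sum]
      refine Finset.sum_le_sum fun d hd => ?_
      have := hge (P q) (insert q ((Q q).erase d)) (sub_succ hP) (insert_sub_succ (erase_sub hQ))
        (by rw [card_ins_erase hQ hd, hc])
      rwa [← hh, ← hx] at this
    have p5 : Z t N (h - 1) * (SD * SD') ≤ ∑ g ∈ P q, ∑ d ∈ Q q,
        EJ t (fun P Q => ψ1 P * ψ2 Q) N (q + 1) (st P q ((P q).erase g))
          (st Q q ((Q q).erase d)) := by
      rw [hSD, hSD', Finset.sum_mul, Finset.mul_sum]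
      refine Finset.sum_le_sum fun g hg => ?_
      rw [Finset.mul_sum, Finset.mul_sum]
      refine Finset.sum_le_sum fun d hd => ?_
      have := hge ((P q).erase g) ((Q q).erase d) (sub_succ (erase_sub hP))
        (sub_succ (erase_sub hQ))
        (by rw [Finset.card_erase_of_mem hg, Finset.card_erase_of_mem hd, hc])
      rwa [Finset.card_erase_of_mem hg, ← hh] at this
    have p1' := mul_le_mul_of_nonneg_left p1 ht0
    linarith

end Pool.Agent.H.MP_f011a7_co.One
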