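import Pool.Agent.H.MP_f011a7_co.One.Jo

/-!
# MP_f011a7_co, one-sided up-sets: the classes of permutations which are fixed up to a state
-/

set_option autoImplicit false

namespace Pool.Agent.H.MP_f011a7_co.One

open Finset

variable {n : ℕ}

/-- the open positions after `q` sites: the positions `k < q` with a value `≥ q` -/
def aP (σ : Equiv.Perm (Fin n)) (q : ℕ) : Finset ℕ :=
  (univ.filter fun k : Fin n => (k : ℕ) < q ∧ q ≤ (σ k : ℕ)).image (fun k : Fin n => (k : ℕ))

theorem mem_aP {σ : Equiv.Perm (Fin n)} {q : ℕ} (k : Fin n) :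
    (k : ℕ) ∈ aP σ q ↔ (k : ℕ) < q ∧ q ≤ (σ k : ℕ) := by
  unfold aP
  rw [Finset.mem_image]
  constructor
  · rintro ⟨j, hj, hjk⟩
    have : j = k := Fin.ext hjk
    rw [← this]
    exact (Finset.mem_filter.1 hj).2
  · intro h
    exact ⟨k, Finset.mem_filter.2 ⟨Finset.mem_univ _, h⟩, rfl⟩

theorem mem_aP_lt {σ : Equiv.Perm (Fin n)} {q k : ℕ} (h : k ∈ aP σ q) : k < n ∧ k < q := by
  unfold aP at h
  rw [Finset.mem_image] at h
  obtain ⟨j, hj, hjk⟩ := h
  rw [← hjk]
  exact ⟨j.2, (Finset.mem_filter.1 hj).2.1⟩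

theorem aP_gt {σ : Equiv.Perm (Fin n)} {q : ℕ} (h : n ≤ q) : aP σ q = ∅ := by
  rw [Finset.eq_empty_iff_forall_notMem]
  intro k hk
  have h1 := (mem_aP_lt hk).1
  have h2 := (mem_aP (σ := σ) (q := q) ⟨k, h1⟩).1 hk
  have h3 := (σ ⟨k, h1⟩).2
  omega

/-- the permutations with the first `r` positions and the first `s` values prescribed: the
positions in `A` have values `≥ s`, the others are given by `c` -/
def Cls (r s : ℕ) (A : Finset ℕ) (c : Fin n → Fin n) : Finset (Equiv.Perm (Fin n)) :=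
  univ.filter fun σ => ∀ k : Fin n, (k : ℕ) < r →
    ((k : ℕ) ∈ A → s ≤ (σ k : ℕ)) ∧ ((k : ℕ) ∉ A → σ k = c k)

theorem mem_Cls {r s : ℕ} {A : Finset ℕ} {c : Fin n → Fin n} {σ : Equiv.Perm (Fin n)} :
    σ ∈ Cls r s A c ↔ ∀ k : Fin n, (k : ℕ) < r →
      ((k : ℕ) ∈ A → s ≤ (σ k : ℕ)) ∧ ((k : ℕ) ∉ A → σ k = c k) := by
  unfold Cls
  rw [Finset.mem_filter]
  exact ⟨fun h => h.2, fun h => ⟨Finset.mem_univ _, h⟩⟩

/-- the consistency conditions -/
structure Hyp (r s : ℕ) (A B : Finset ℕ) (c : Fin n → Fin n) : Prop where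
  ha : A ⊆ range r
  hb : B ⊆ range s
  h3 : ∀ k : Fin n, (k : ℕ) < r → (k : ℕ) ∉ A → (c k : ℕ) < s ∧ (c k : ℕ) ∉ B
  h4 : ∀ v : Fin n, (v : ℕ) < s → (v : ℕ) ∉ B →
    ∃ k : Fin n, (k : ℕ) < r ∧ (k : ℕ) ∉ A ∧ c k = v

variable {r s : ℕ} {A B : Finset ℕ} {c : Fin n → Fin n}

theorem Hyp.mem_B (H : Hyp r s A B c) {σ : Equiv.Perm (Fin n)} (hσ : σ ∈ Cls r s A c)
    (v : Fin n) (hv : (v : ℕ) < s) : (v : ℕ) ∈ B ↔ r ≤ (σ.symm v : ℕ) := by
  rw [mem_Cls] at hσ
  constructor
  · intro hB
    by_contra hlt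
    push Not at hlt
    by_cases hA : (σ.symm v : ℕ) ∈ A
    · have := (hσ _ hlt).1 hA
      rw [Equiv.apply_symm_apply] at this
      omega
    · have h1 := (hσ _ hlt).2 hA
      rw [Equiv.apply_symm_apply] at h1
      have h2 := (H.h3 _ hlt hA).2
      rw [← h1] at h2
      exact h2 hB
  · intro hle
    by_contra hB
    obtain ⟨k, hk1, hk2, hk3⟩ := H.h4 v hv hB
    have h1 := (hσ k hk1).2 hk2
    rw [hk3] at h1
    have h2 : σ.symm v = k := by rw [← h1, Equiv.symm_apply_apply]
    rw [h2] at hle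
    omega

theorem Hyp.mem_A (H : Hyp r s A B c) {σ : Equiv.Perm (Fin n)} (hσ : σ ∈ Cls r s A c)
    (k : Fin n) (hk : (k : ℕ) < r) : (k : ℕ) ∈ A ↔ s ≤ (σ k : ℕ) := by
  rw [mem_Cls] at hσ
  constructor
  · intro hA
    exact (hσ k hk).1 hA
  · intro hle
    by_contra hA
    have h1 := (hσ k hk).2 hA
    have h2 := (H.h3 k hk hA).1
    rw [h1] at hle
    omega

/-- the paths at the diagonal -/
theorem Hyp.path {q : ℕ} (hq : q ≤ n) (H : Hyp q q A B c) {σ : Equiv.Perm (Fin n)}
    (hσ : σ ∈ Cls q q A c) : aP σ q = A ∧ aP σ.symm q = B := by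
  constructor
  · ext k
    constructor
    · intro hk
      obtain ⟨h1, h2⟩ := mem_aP_lt hk
      have h3 := (mem_aP (σ := σ) (q := q) ⟨k, h1⟩).1 hk
      exact (H.mem_A hσ ⟨k, h1⟩ h2).2 h3.2
    · intro hk
      have h1 := Finset.mem_range.1 (H.ha hk)
      have h2 : k < n := by omega
      exact (mem_aP (σ := σ) (q := q) ⟨k, h2⟩).2 ⟨h1, (H.mem_A hσ ⟨k, h2⟩ h1).1 hk⟩
  · ext k
    constructor
    · intro hk
      obtain ⟨h1, h2⟩ := mem_aP_lt hk
      have h3 := (mem_aP (σ := σ.symm) (q := q) ⟨k, h1⟩).1 hk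
      exact (H.mem_B hσ ⟨k, h1⟩ h2).2 h3.2
    · intro hk
      have h1 := Finset.mem_range.1 (H.hb hk)
      have h2 : k < n := by omega
      exact (mem_aP (σ := σ.symm) (q := q) ⟨k, h2⟩).2 ⟨h1, (H.mem_B hσ ⟨k, h2⟩ h1).1 hk⟩

/-- a number as an element of `Fin n` -/
def tf (z : Fin n) (b : ℕ) : Fin n := if h : b < n then ⟨b, h⟩ else z

theorem tf_val (z : Fin n) {b : ℕ} (h : b < n) : (tf z b : ℕ) = b := by
  unfold tf
  rw [dif_pos h]

/-! ### the rows -/

theorem row_sum (H : Hyp r s A B c) (hs : s ≤ n) (z : Fin n) (hz : (z : ℕ) = r)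
    (f : Equiv.Perm (Fin n) → ℝ) :
    ∑ σ ∈ Cls r s A c, f σ = ∑ σ ∈ Cls (r + 1) s (insert r A) c, f σ +
      ∑ b ∈ B, ∑ σ ∈ Cls (r + 1) s A (Function.update c z (tf z b)), f σ := by
  have hrA : r ∉ A := notMem_of_sub H.ha
  have hzr : ∀ k : Fin n, (k : ℕ) < r → k ≠ z := by
    intro k hk h1
    rw [h1] at hk
    omega
  have hsplit : ∀ k : Fin n, (k : ℕ) < r + 1 → k ≠ z → (k : ℕ) < r := by
    intro k hk h1
    have : (k : ℕ) ≠ r := fun h2 => h1 (Fin.ext (h2.trans hz.symm))
    omega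
  rw [← Finset.sum_filter_add_sum_filter_not (Cls r s A c) (fun σ => s ≤ (σ z : ℕ))]
  congr 1
  · refine Finset.sum_congr ?_ (fun _ _ => rfl)
    ext σ
    rw [Finset.mem_filter, mem_Cls, mem_Cls]
    constructor
    · rintro ⟨h1, h2⟩ k hk
      by_cases hkz : k = z
      · rw [hkz]
        exact ⟨fun _ => h2, fun h3 => absurd (by rw [hz]; exact Finset.mem_insert_self _ _) h3⟩
      · have hk' := hsplit k hk hkz
        refine ⟨fun h3 => (h1 k hk').1 ?_, fun h3 => (h1 k hk').2 ?_⟩
        · rcases Finset.mem_insert.1 h3 with h4 | h4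
          · omega
          · exact h4
        · exact fun h4 => h3 (Finset.mem_insert_of_mem h4)
    · intro h
      refine ⟨fun k hk => ⟨fun h3 => (h k (by omega)).1 (Finset.mem_insert_of_mem h3),
        fun h3 => (h k (by omega)).2 fun h4 => ?_⟩, (h z (by omega)).1 ?_⟩
      · rcases Finset.mem_insert.1 h4 with h5 | h5
        · omega
        · exact h3 h5
      · rw [hz]; exact Finset.mem_insert_self _ _
  · rw [← Finset.sum_fiberwise_of_maps_to (t := B) (g := fun σ : Equiv.Perm (Fin n) =>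
      (σ z : ℕ))]
    · refine Finset.sum_congr rfl fun b hb => Finset.sum_congr ?_ (fun _ _ => rfl)
      have hbs := Finset.mem_range.1 (H.hb hb)
      have hbn : b < n := by omega
      ext σ
      rw [Finset.mem_filter, Finset.mem_filter, mem_Cls, mem_Cls]
      constructor
      · rintro ⟨⟨h1, h2⟩, h3⟩ k hk
        by_cases hkz : k = z
        · rw [hkz]
          refine ⟨fun h4 => absurd h4 (by rw [hz]; exact hrA), fun _ => ?_⟩
          rw [Function.update_self]
          exact Fin.ext (h3.trans (tf_val z hbn).symm)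
        · rw [Function.update_of_ne hkz]
          exact h1 k (hsplit k hk hkz)
      · intro h
        have hσz : (σ z : ℕ) = b := by
          have := (h z (by omega)).2 (by rw [hz]; exact hrA)
          rw [this, Function.update_self, tf_val z hbn]
        refine ⟨⟨fun k hk => ?_, by rw [hσz]; omega⟩, hσz⟩
        have := h k (by omega)
        rwa [Function.update_of_ne (hzr k hk)] at this
    · intro σ hσ
      rw [Finset.mem_filter] at hσ
      have h1 : (σ z : ℕ) < s := by
        have := hσ.2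
        omega
      rw [H.mem_B hσ.1 _ h1, Equiv.symm_apply_apply, hz]

theorem row_hyp_open (H : Hyp r s A B c) : Hyp (r + 1) s (insert r A) B c := by
  refine ⟨insert_sub_succ H.ha, H.hb, ?_, ?_⟩
  · intro k hk hkA
    have h1 : (k : ℕ) ≠ r := fun h2 => hkA (by rw [h2]; exact Finset.mem_insert_self _ _)
    exact H.h3 k (by omega) (fun h2 => hkA (Finset.mem_insert_of_mem h2))
  · intro v hv hvB
    obtain ⟨k, h1, h2, h3⟩ := H.h4 v hv hvB
    refine ⟨k, by omega, fun h4 => ?_, h3⟩
    rcases Finset.mem_insert.1 h4 with h5 | h5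
    · omega
    · exact h2 h5

theorem row_hyp_close (H : Hyp r s A B c) (hs : s ≤ n) (z : Fin n) (hz : (z : ℕ) = r) {b : ℕ}
    (hb : b ∈ B) : Hyp (r + 1) s A (B.erase b) (Function.update c z (tf z b)) := by
  have hbs := Finset.mem_range.1 (H.hb hb)
  have hbn : b < n := by omega
  have hrA : r ∉ A := notMem_of_sub H.ha
  refine ⟨sub_succ H.ha, erase_sub H.hb, ?_, ?_⟩
  · intro k hk hkA
    by_cases hkz : k = z
    · rw [hkz, Function.update_self, tf_val z hbn]
      exact ⟨hbs, Finset.notMem_erase _ _⟩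
    · rw [Function.update_of_ne hkz]
      have h1 : (k : ℕ) ≠ r := fun h2 => hkz (Fin.ext (h2.trans hz.symm))
      obtain ⟨h2, h3⟩ := H.h3 k (by omega) hkA
      exact ⟨h2, fun h4 => h3 (Finset.mem_of_mem_erase h4)⟩
  · intro v hv hvB
    by_cases hvb : (v : ℕ) = b
    · refine ⟨z, by omega, by rw [hz]; exact hrA, ?_⟩
      rw [Function.update_self]
      exact Fin.ext ((tf_val z hbn).trans hvb.symm)
    · obtain ⟨k, h1, h2, h3⟩ := H.h4 v hv (fun h4 => hvB (Finset.mem_erase.2 ⟨hvb, h4⟩))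
      have hkz : k ≠ z := by
        intro h4
        rw [h4] at h1
        omega
      refine ⟨k, by omega, h2, ?_⟩
      rw [Function.update_of_ne hkz]
      exact h3

theorem row_sub_open : Cls (r + 1) s (insert r A) c ⊆ Cls r s A c := by
  intro σ hσ
  rw [mem_Cls] at hσ ⊢
  intro k hk
  have h := hσ k (by omega)
  refine ⟨fun h1 => h.1 (Finset.mem_insert_of_mem h1), fun h1 => h.2 fun h2 => ?_⟩
  rcases Finset.mem_insert.1 h2 with h3 | h3
  · omega
  · exact h1 h3

theorem row_sub_close {z v : Fin n} (hz : (z : ℕ) = r) :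
    Cls (r + 1) s A (Function.update c z v) ⊆ Cls r s A c := by
  intro σ hσ
  rw [mem_Cls] at hσ ⊢
  intro k hk
  have h := hσ k (by omega)
  have hkz : k ≠ z := by
    intro h4
    rw [h4] at hk
    omega
  rwa [Function.update_of_ne hkz] at h

/-! ### the columns -/

theorem col_sum (H : Hyp r s A B c) (hr : r ≤ n) (z : Fin n) (hz : (z : ℕ) = s)
    (f : Equiv.Perm (Fin n) → ℝ) :
    ∑ σ ∈ Cls r s A c, f σ = ∑ σ ∈ Cls r (s + 1) A c, f σ +
      ∑ a ∈ A, ∑ σ ∈ Cls r (s + 1) (A.erase a) (Function.update c (tf z a) z), f σ := by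
  rw [← Finset.sum_filter_add_sum_filter_not (Cls r s A c) (fun σ => r ≤ (σ.symm z : ℕ))]
  congr 1
  · refine Finset.sum_congr ?_ (fun _ _ => rfl)
    ext σ
    rw [Finset.mem_filter, mem_Cls, mem_Cls]
    constructor
    · rintro ⟨h1, h2⟩ k hk
      refine ⟨fun h3 => ?_, fun h3 => (h1 k hk).2 h3⟩
      have h4 := (h1 k hk).1 h3
      have h5 : (σ k : ℕ) ≠ s := by
        intro h6
        have h7 : σ k = z := Fin.ext (h6.trans hz.symm)
        rw [← h7, Equiv.symm_apply_apply] at h2
        omega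
      omega
    · intro h
      refine ⟨fun k hk => ⟨fun h3 => ?_, fun h3 => (h k hk).2 h3⟩, ?_⟩
      · have := (h k hk).1 h3
        omega
      · by_contra hlt
        push Not at hlt
        by_cases hA : (σ.symm z : ℕ) ∈ A
        · have := (h _ hlt).1 hA
          rw [Equiv.apply_symm_apply] at this
          omega
        · have h1 := (h _ hlt).2 hA
          rw [Equiv.apply_symm_apply] at h1
          have h2 := (H.h3 _ hlt hA).1
          rw [← h1] at h2
          omega
  · rw [← Finset.sum_fiberwise_of_maps_to (t := A) (g := fun σ : Equiv.Perm (Fin n) =>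
      (σ.symm z : ℕ))]
    · refine Finset.sum_congr rfl fun a ha => Finset.sum_congr ?_ (fun _ _ => rfl)
      have har := Finset.mem_range.1 (H.ha ha)
      have han : a < n := by omega
      have hta : (tf z a : ℕ) = a := tf_val z han
      ext σ
      rw [Finset.mem_filter, Finset.mem_filter, mem_Cls, mem_Cls]
      constructor
      · rintro ⟨⟨h1, h2⟩, h3⟩ k hk
        have hσa : σ (tf z a) = z := by
          have : σ.symm z = tf z a := Fin.ext (h3.trans hta.symm)
          rw [← this, Equiv.apply_symm_apply]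
        by_cases hka : k = tf z a
        · rw [hka, Function.update_self, hta]
          exact ⟨fun h4 => absurd h4 (Finset.notMem_erase _ _), fun _ => hσa⟩
        · rw [Function.update_of_ne hka]
          have hka' : (k : ℕ) ≠ a := fun h4 => hka (Fin.ext (h4.trans hta.symm))
          refine ⟨fun h4 => ?_, fun h4 => (h1 k hk).2 fun h5 => h4 (Finset.mem_erase.2
            ⟨hka', h5⟩)⟩
          have h5 := (h1 k hk).1 (Finset.mem_of_mem_erase h4)
          have h6 : (σ k : ℕ) ≠ s := by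
            intro h7
            have h8 : σ k = z := Fin.ext (h7.trans hz.symm)
            exact hka (σ.injective (h8.trans hσa.symm))
          omega
      · intro h
        have hσa : σ (tf z a) = z := by
          have := (h (tf z a) (by omega)).2 (by rw [hta]; exact Finset.notMem_erase _ _)
          rw [this, Function.update_self]
        have hsa : σ.symm z = tf z a := by rw [Equiv.symm_apply_eq]; exact hσa.symm
        refine ⟨⟨fun k hk => ?_, by rw [hsa, hta]; omega⟩, by rw [hsa, hta]⟩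
        have h1 := h k hk
        by_cases hka : k = tf z a
        · rw [hka, hta, hσa]
          exact ⟨fun _ => by omega, fun h4 => absurd ha h4⟩
        · rw [Function.update_of_ne hka] at h1
          have hka' : (k : ℕ) ≠ a := fun h4 => hka (Fin.ext (h4.trans hta.symm))
          refine ⟨fun h4 => ?_, fun h4 => h1.2 fun h5 => h4 (Finset.mem_of_mem_erase h5)⟩
          have := h1.1 (Finset.mem_erase.2 ⟨hka', h4⟩)
          omega
    · intro σ hσ
      rw [Finset.mem_filter] at hσ
      have h1 : (σ.symm z : ℕ) < r := by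
        have := hσ.2
        omega
      rw [H.mem_A hσ.1 _ h1, Equiv.apply_symm_apply, hz]

theorem col_hyp_open (H : Hyp r s A B c) : Hyp r (s + 1) A (insert s B) c := by
  refine ⟨H.ha, insert_sub_succ H.hb, ?_, ?_⟩
  · intro k hk hkA
    obtain ⟨h1, h2⟩ := H.h3 k hk hkA
    refine ⟨by omega, fun h3 => ?_⟩
    rcases Finset.mem_insert.1 h3 with h4 | h4
    · omega
    · exact h2 h4
  · intro v hv hvB
    have h1 : (v : ℕ) ≠ s := fun h2 => hvB (by rw [h2]; exact Finset.mem_insert_self _ _)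
    exact H.h4 v (by omega) (fun h2 => hvB (Finset.mem_insert_of_mem h2))

theorem col_hyp_close (H : Hyp r s A B c) (hr : r ≤ n) (z : Fin n) (hz : (z : ℕ) = s) {a : ℕ}
    (ha : a ∈ A) : Hyp r (s + 1) (A.erase a) B (Function.update c (tf z a) z) := by
  have har := Finset.mem_range.1 (H.ha ha)
  have han : a < n := by omega
  have hta : (tf z a : ℕ) = a := tf_val z han
  have hsB : s ∉ B := notMem_of_sub H.hb
  refine ⟨erase_sub H.ha, sub_succ H.hb, ?_, ?_⟩
  · intro k hk hkA
    by_cases hka : k = tf z a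
    · rw [hka, Function.update_self, hz]
      exact ⟨Nat.lt_succ_self _, hsB⟩
    · rw [Function.update_of_ne hka]
      have hka' : (k : ℕ) ≠ a := fun h4 => hka (Fin.ext (h4.trans hta.symm))
      obtain ⟨h1, h2⟩ := H.h3 k hk (fun h5 => hkA (Finset.mem_erase.2 ⟨hka', h5⟩))
      exact ⟨by omega, h2⟩
  · intro v hv hvB
    by_cases hvs : (v : ℕ) = s
    · refine ⟨tf z a, by omega, by rw [hta]; exact Finset.notMem_erase _ _, ?_⟩
      rw [Function.update_self]
      exact Fin.ext (hz.trans hvs.symm)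
    · obtain ⟨k, h1, h2, h3⟩ := H.h4 v (by omega) hvB
      have hka : k ≠ tf z a := by
        intro h4
        rw [h4, hta] at h2
        exact h2 ha
      refine ⟨k, h1, fun h4 => h2 (Finset.mem_of_mem_erase h4), ?_⟩
      rw [Function.update_of_ne hka]
      exact h3

theorem col_sub_open : Cls r (s + 1) A c ⊆ Cls r s A c := by
  intro σ hσ
  rw [mem_Cls] at hσ ⊢
  intro k hk
  have h := hσ k hk
  refine ⟨fun h1 => ?_, h.2⟩
  have := h.1 h1
  omega

theorem col_sub_close {z : Fin n} (hz : (z : ℕ) = s) {a : ℕ} (ha : a ∈ A) (han : a < n) :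
    Cls r (s + 1) (A.erase a) (Function.update c (tf z a) z) ⊆ Cls r s A c := by
  intro σ hσ
  rw [mem_Cls] at hσ ⊢
  intro k hk
  have h := hσ k hk
  have hta : (tf z a : ℕ) = a := tf_val z han
  by_cases hka : k = tf z a
  · rw [hka, Function.update_self, hta] at h
    rw [hka, hta]
    have h1 := h.2 (Finset.notMem_erase _ _)
    rw [h1, hz]
    exact ⟨fun _ => le_rfl, fun h4 => absurd ha h4⟩
  · rw [Function.update_of_ne hka] at h
    have hka' : (k : ℕ) ≠ a := fun h4 => hka (Fin.ext (h4.trans hta.symm))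
    refine ⟨fun h4 => ?_, fun h4 => h.2 fun h5 => h4 (Finset.mem_of_mem_erase h5)⟩
    have := h.1 (Finset.mem_erase.2 ⟨hka', h4⟩)
    omega

end Pool.Agent.H.MP_f011a7_co.One
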