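import Pool.Agent.H.MP_f011a7_co.One.Li

/-!
# MP_f011a7_co, one-sided up-sets: the sum over the permutations is the joint chain
-/

set_option autoImplicit false

namespace Pool.Agent.H.MP_f011a7_co.One

open Finset

variable {n : ℕ}

/-- the weight of the positions `≥ q` -/
noncomputable def wq (t : ℝ) (q : ℕ) (σ : Equiv.Perm (Fin n)) : ℝ :=
  ∏ k ∈ univ.filter (fun k : Fin n => q ≤ (k : ℕ)), if σ k = k then t else 1

theorem wq_step (t : ℝ) {q : ℕ} (σ : Equiv.Perm (Fin n)) (z : Fin n) (hz : (z : ℕ) = q) :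
    wq t q σ = (if σ z = z then t else 1) * wq t (q + 1) σ := by
  unfold wq
  have h1 : univ.filter (fun k : Fin n => q ≤ (k : ℕ)) =
      insert z (univ.filter (fun k : Fin n => q + 1 ≤ (k : ℕ))) := by
    ext k
    rw [Finset.mem_insert, Finset.mem_filter, Finset.mem_filter]
    constructor
    · rintro ⟨_, h2⟩
      by_cases h3 : k = z
      · exact Or.inl h3
      · right
        have : (k : ℕ) ≠ q := fun h4 => h3 (Fin.ext (h4.trans hz.symm))
        exact ⟨Finset.mem_univ _, by omega⟩
    · rintro (h2 | ⟨_, h2⟩)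
      · rw [h2]; exact ⟨Finset.mem_univ _, by omega⟩
      · exact ⟨Finset.mem_univ _, by omega⟩
  rw [h1, Finset.prod_insert]
  rw [Finset.mem_filter]
  rintro ⟨_, h2⟩
  omega

theorem wq_end (t : ℝ) (σ : Equiv.Perm (Fin n)) : wq t n σ = 1 := by
  unfold wq
  have h1 : univ.filter (fun k : Fin n => n ≤ (k : ℕ)) = ∅ := by
    rw [Finset.filter_eq_empty_iff]
    intro k _
    have := k.2
    omega
  rw [h1, Finset.prod_empty]

theorem wq_zero (t : ℝ) (σ : Equiv.Perm (Fin n)) :
    wq t 0 σ = t ^ (univ.filter fun k : Fin n => σ k = k).card := by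
  unfold wq
  have h1 : univ.filter (fun k : Fin n => 0 ≤ (k : ℕ)) = univ :=
    Finset.filter_true_of_mem fun k _ => Nat.zero_le _
  rw [h1, Finset.prod_ite, Finset.prod_const, Finset.prod_const_one, mul_one]

/-- **The sum over a class is the joint chain.** -/
theorem link (t : ℝ) (Φ : (ℕ → Finset ℕ) → (ℕ → Finset ℕ) → ℝ) (N : ℕ) :
    ∀ q, q + N = n → ∀ (P Q : ℕ → Finset ℕ) (c : Fin n → Fin n), Hyp q q (P q) (Q q) c →
    (∀ r, q < r → P r = ∅ ∧ Q r = ∅) →
    (∀ σ ∈ Cls q q (P q) c, ∀ r ≤ q, aP σ r = P r ∧ aP σ.symm r = Q r) →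
    ∑ σ ∈ Cls q q (P q) c, wq t q σ * Φ (aP σ) (aP σ.symm) = EJ t Φ N q P Q := by
  induction N with
  | zero =>
    intro q hq P Q c H hfut hist
    have hqn : q = n := by omega
    unfold EJ
    by_cases hPQ : P q = ∅ ∧ Q q = ∅
    · rw [if_pos hPQ]
      have hsurj : Function.Surjective c := by
        intro v
        obtain ⟨k, _, _, h3⟩ := H.h4 v (by have := v.2; omega)
          (by rw [hPQ.2]; exact Finset.notMem_empty _)
        exact ⟨k, h3⟩
      have hinj : Function.Injective c := Finite.injective_iff_surjective.2 hsurj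
      obtain ⟨σ0, hσ0⟩ : ∃ σ0 : Equiv.Perm (Fin n), ∀ k, σ0 k = c k :=
        ⟨Equiv.ofBijective c ⟨hinj, hsurj⟩, fun k => rfl⟩
      have hcls : Cls q q (P q) c = {σ0} := by
        ext σ
        rw [mem_Cls, Finset.mem_singleton]
        constructor
        · intro h
          refine Equiv.ext fun k => ?_
          rw [hσ0 k]
          exact (h k (by have := k.2; omega)).2 (by rw [hPQ.1]; exact Finset.notMem_empty _)
        · rintro rfl k _
          refine ⟨fun h1 => ?_, fun _ => hσ0 k⟩
          rw [hPQ.1] at h1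
          exact absurd h1 (Finset.notMem_empty _)
      rw [hcls, Finset.sum_singleton, hqn, wq_end, one_mul]
      have h1 : aP σ0 = P := by
        funext r
        rcases Nat.lt_or_ge q r with h2 | h2
        · rw [(hfut r h2).1]; exact aP_gt (by omega)
        · exact (hist σ0 (by rw [hcls]; exact Finset.mem_singleton_self _) r h2).1
      have h2 : aP σ0.symm = Q := by
        funext r
        rcases Nat.lt_or_ge q r with h2 | h2
        · rw [(hfut r h2).2]; exact aP_gt (by omega)
        · exact (hist σ0 (by rw [hcls]; exact Finset.mem_singleton_self _) r h2).2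
      rw [h1, h2]
    · rw [if_neg hPQ]
      apply Finset.sum_eq_zero
      intro σ hσ
      exfalso
      have h1 := hist σ hσ q le_rfl
      rw [aP_gt (by omega), aP_gt (by omega)] at h1
      exact hPQ ⟨h1.1.symm, h1.2.symm⟩
  | succ N ih =>
    intro q hq P Q c H hfut hist
    have hqn : q < n := by omega
    obtain ⟨z, hz⟩ : ∃ z : Fin n, (z : ℕ) = q := ⟨⟨q, hqn⟩, rfl⟩
    have hqP : q ∉ P q := notMem_of_sub H.ha
    -- the induction hypothesis for one new class
    have IH : ∀ (A' B' : Finset ℕ) (c' : Fin n → Fin n), Hyp (q + 1) (q + 1) A' B' c' →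
        Cls (q + 1) (q + 1) A' c' ⊆ Cls q q (P q) c →
        ∑ σ ∈ Cls (q + 1) (q + 1) A' c', wq t (q + 1) σ * Φ (aP σ) (aP σ.symm) =
          EJ t Φ N (q + 1) (st P q A') (st Q q B') := by
      intro A' B' c' H' hsub
      have e := ih (q + 1) (by omega) (st P q A') (st Q q B') c'
        (by rw [st_self, st_self]; exact H')
        (fun r hr => by
          rw [st_ne _ _ (by omega), st_ne _ _ (by omega)]
          exact hfut r (by omega))
        (fun σ hσ r hr => by
          rw [st_self] at hσ
          rcases Nat.lt_or_ge q r with h2 | h2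
          · have h3 : r = q + 1 := by omega
            rw [h3, st_self, st_self]
            exact H'.path (by omega) hσ
          · rw [st_ne _ _ (by omega), st_ne _ _ (by omega)]
            exact hist σ (hsub hσ) r h2)
      rwa [st_self] at e
    -- the weights
    have W1 : ∀ (A' : Finset ℕ) (c' : Fin n → Fin n), q ∈ A' →
        ∀ σ ∈ Cls (q + 1) (q + 1) A' c', wq t q σ * Φ (aP σ) (aP σ.symm) =
          wq t (q + 1) σ * Φ (aP σ) (aP σ.symm) := by
      intro A' c' hA' σ hσ
      have h1 := ((mem_Cls.1 hσ) z (by omega)).1 (by rw [hz]; exact hA')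
      have h2 : σ z ≠ z := by
        intro h3
        rw [h3] at h1
        omega
      rw [wq_step t σ z hz, if_neg h2, one_mul]
    have W2 : ∀ (A' : Finset ℕ) (c' : Fin n → Fin n), q ∉ A' → c' z ≠ z →
        ∀ σ ∈ Cls (q + 1) (q + 1) A' c', wq t q σ * Φ (aP σ) (aP σ.symm) =
          wq t (q + 1) σ * Φ (aP σ) (aP σ.symm) := by
      intro A' c' hA' hc' σ hσ
      have h1 := ((mem_Cls.1 hσ) z (by omega)).2 (by rw [hz]; exact hA')
      rw [wq_step t σ z hz, if_neg (by rw [h1]; exact hc'), one_mul]
    have W3 : ∀ (A' : Finset ℕ) (c' : Fin n → Fin n), q ∉ A' → c' z = z →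
        ∀ σ ∈ Cls (q + 1) (q + 1) A' c', wq t q σ * Φ (aP σ) (aP σ.symm) =
          t * (wq t (q + 1) σ * Φ (aP σ) (aP σ.symm)) := by
      intro A' c' hA' hc' σ hσ
      have h1 := ((mem_Cls.1 hσ) z (by omega)).2 (by rw [hz]; exact hA')
      rw [wq_step t σ z hz, if_pos (by rw [h1]; exact hc'), mul_assoc]
    rw [row_sum H hqn.le z hz]
    have Ho := row_hyp_open H
    rw [col_sum Ho (by omega) z hz, Finset.sum_insert hqP, Finset.erase_insert hqP]
    have htz : tf z q = z := Fin.ext ((tf_val z hqn).trans hz.symm)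
    rw [htz]
    -- U
    have eU : ∑ σ ∈ Cls (q + 1) (q + 1) (insert q (P q)) c, wq t q σ * Φ (aP σ) (aP σ.symm) =
        EJ t Φ N (q + 1) (st P q (insert q (P q))) (st Q q (insert q (Q q))) := by
      rw [Finset.sum_congr rfl (W1 _ c (Finset.mem_insert_self _ _))]
      exact IH _ _ _ (col_hyp_open Ho) (col_sub_open.trans row_sub_open)
    -- F
    have eF : ∑ σ ∈ Cls (q + 1) (q + 1) (P q) (Function.update c z z),
        wq t q σ * Φ (aP σ) (aP σ.symm) =
        t * EJ t Φ N (q + 1) (st P q (P q)) (st Q q (Q q)) := by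
      rw [Finset.sum_congr rfl (W3 _ _ hqP (Function.update_self _ _ _)), ← Finset.mul_sum]
      have h1 := col_hyp_close Ho (by omega) z hz (Finset.mem_insert_self q (P q))
      rw [Finset.erase_insert hqP, htz] at h1
      have h2 := col_sub_close (c := c) (r := q + 1) (A := insert q (P q)) hz
        (Finset.mem_insert_self q (P q)) hqn
      rw [Finset.erase_insert hqP, htz] at h2
      rw [IH _ _ _ h1 (h2.trans row_sub_open)]
    -- E
    have eE : ∑ a ∈ P q, ∑ σ ∈ Cls (q + 1) (q + 1) ((insert q (P q)).erase a)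
        (Function.update c (tf z a) z), wq t q σ * Φ (aP σ) (aP σ.symm) =
        ∑ g ∈ P q, EJ t Φ N (q + 1) (st P q (insert q ((P q).erase g))) (st Q q (Q q)) := by
      refine Finset.sum_congr rfl fun a ha => ?_
      have haq : a < q := Finset.mem_range.1 (H.ha ha)
      have hne : a ≠ q := by omega
      have h0 : q ∈ (insert q (P q)).erase a :=
        Finset.mem_erase.2 ⟨hne.symm, Finset.mem_insert_self _ _⟩
      rw [Finset.sum_congr rfl (W1 _ _ h0)]
      have h1 := col_hyp_close Ho (by omega) z hz (Finset.mem_insert_of_mem ha (b := q))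
      have h2 := col_sub_close (c := c) (r := q + 1) (A := insert q (P q)) hz
        (Finset.mem_insert_of_mem ha (b := q)) (by omega)
      rw [IH _ _ _ h1 (h2.trans row_sub_open), erase_insert_ne hne]
    rw [eU, eF, eE]
    -- the classes with `q ↦ b`
    have eR : ∑ b ∈ Q q, ∑ σ ∈ Cls (q + 1) q (P q) (Function.update c z (tf z b)),
        wq t q σ * Φ (aP σ) (aP σ.symm) =
        ∑ d ∈ Q q, (EJ t Φ N (q + 1) (st P q (P q)) (st Q q (insert q ((Q q).erase d))) +
          ∑ g ∈ P q, EJ t Φ N (q + 1) (st P q ((P q).erase g)) (st Q q ((Q q).erase d))) := by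
      refine Finset.sum_congr rfl fun b hb => ?_
      have hbq : b < q := Finset.mem_range.1 (H.hb hb)
      have htb : (tf z b : ℕ) = b := tf_val z (by omega)
      have hbz : tf z b ≠ z := by
        intro h1
        rw [h1] at htb
        omega
      have Hb := row_hyp_close H hqn.le z hz hb
      rw [col_sum Hb (by omega) z hz]
      congr 1
      · rw [Finset.sum_congr rfl (W2 _ _ hqP (by rw [Function.update_self]; exact hbz))]
        exact IH _ _ _ (col_hyp_open Hb) (col_sub_open.trans (row_sub_close hz))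
      · refine Finset.sum_congr rfl fun a ha => ?_
        have haq : a < q := Finset.mem_range.1 (H.ha ha)
        have hta : (tf z a : ℕ) = a := tf_val z (by omega)
        have haz : z ≠ tf z a := by
          intro h1
          rw [← h1] at hta
          omega
        rw [Finset.sum_congr rfl (W2 _ _ (fun h1 => hqP (Finset.mem_of_mem_erase h1))
          (by rw [Function.update_of_ne haz, Function.update_self]; exact hbz))]
        exact IH _ _ _ (col_hyp_close Hb (by omega) z hz ha)
          ((col_sub_close hz ha (by omega)).trans (row_sub_close hz))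
    rw [eR, Finset.sum_add_distrib, EJ]
    have hcomm : ∑ d ∈ Q q, ∑ g ∈ P q, EJ t Φ N (q + 1) (st P q ((P q).erase g))
        (st Q q ((Q q).erase d)) = ∑ g ∈ P q, ∑ d ∈ Q q, EJ t Φ N (q + 1)
        (st P q ((P q).erase g)) (st Q q ((Q q).erase d)) := Finset.sum_comm
    rw [hcomm]
    ring

/-- **The sum over all permutations.** -/
theorem link_all (t : ℝ) (Φ : (ℕ → Finset ℕ) → (ℕ → Finset ℕ) → ℝ) :
    ∑ σ : Equiv.Perm (Fin n), t ^ (univ.filter fun k : Fin n => σ k = k).card *
      Φ (aP σ) (aP σ.symm) = EJ t Φ n 0 (fun _ => ∅) (fun _ => ∅) := by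
  have h := link (n := n) t Φ n 0 (by omega) (fun _ => ∅) (fun _ => ∅) id
    ⟨Finset.empty_subset _, Finset.empty_subset _, fun k hk => absurd hk (Nat.not_lt_zero _),
      fun k hk => absurd hk (Nat.not_lt_zero _)⟩ (fun r _ => ⟨rfl, rfl⟩)
    (fun σ _ r hr => by
      have h1 : ∀ τ : Equiv.Perm (Fin n), aP τ r = ∅ := by
        intro τ
        rw [Finset.eq_empty_iff_forall_notMem]
        intro k hk
        have := (mem_aP_lt hk).2
        omega
      exact ⟨h1 σ, h1 σ.symm⟩)
  rw [← h]
  have h2 : Cls 0 0 ∅ (id : Fin n → Fin n) = univ := by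
    ext σ
    rw [mem_Cls]
    exact ⟨fun _ => Finset.mem_univ _, fun _ k hk => absurd hk (Nat.not_lt_zero _)⟩
  rw [h2]
  exact Finset.sum_congr rfl fun σ _ => by rw [wq_zero]

end Pool.Agent.H.MP_f011a7_co.One
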