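import Pool.Agent.H.MP_f011a7_co.One.EU

/-!
# MP_f011a7_co, one-sided up-sets: the chain of the open positions is monotone
-/

set_option autoImplicit false

namespace Pool.Agent.H.MP_f011a7_co.One

open Finset

variable {t : ℝ} {ψ : (ℕ → Finset ℕ) → ℝ}

theorem EU_succ_av (ht : 1 ≤ t) (N q : ℕ) (P : ℕ → Finset ℕ) (hP : P q ⊆ range q) :
    EU t ψ (N + 1) q P =
      Z t N ((P q).card + 1) * av t ψ N q P (insert q (P q)) +
      (((P q).card : ℝ) + t) * (Z t N (P q).card * av t ψ N q P (P q)) +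
      ∑ g ∈ P q, (Z t N (P q).card * av t ψ N q P (insert q ((P q).erase g)) +
        ((P q).card : ℝ) * (Z t N ((P q).card - 1) * av t ψ N q P ((P q).erase g))) := by
  rw [EU, EU_eq_av ht N q P (insert_sub_succ hP), EU_eq_av ht N q P (sub_succ hP), card_ins hP]
  congr 1
  apply Finset.sum_congr rfl
  intro g hg
  rw [EU_eq_av ht N q P (insert_sub_succ (erase_sub hP)),
    EU_eq_av ht N q P (sub_succ (erase_sub hP)), card_ins_erase hP hg,
    Finset.card_erase_of_mem hg]

theorem erase_insert_ne {W : Finset ℕ} {a g : ℕ} (h : g ≠ a) :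
    (insert a W).erase g = insert a (W.erase g) := Finset.erase_insert_of_ne (Ne.symm h)

/-- replacing one element by a larger one -/
theorem step_replace (ht : 1 ≤ t) (hψ : ∀ P, 0 ≤ ψ P) {N : ℕ} (hN : MonN t ψ N) (q : ℕ)
    (P : ℕ → Finset ℕ) {W : Finset ℕ} {a b : ℕ} (hab : a < b) (hb : b < q) (hW : W ⊆ range q)
    (haW : a ∉ W) (hbW : b ∉ W) :
    EU t ψ (N + 1) q (Function.update P q (insert a W)) ≤
      EU t ψ (N + 1) q (Function.update P q (insert b W)) := by
  have ht0 : 0 ≤ t := by linarith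
  obtain ⟨P1, hP1⟩ : ∃ P1, P1 = Function.update P q (insert a W) := ⟨_, rfl⟩
  obtain ⟨P2, hP2⟩ : ∃ P2, P2 = Function.update P q (insert b W) := ⟨_, rfl⟩
  have e1 : P1 q = insert a W := by rw [hP1, Function.update_self]
  have e2 : P2 q = insert b W := by rw [hP2, Function.update_self]
  have hHi : Hi (insert b W) (insert a W) := Hi_replace hab.le haW hbW
  have hPH : PHi P2 P1 := by
    rw [hP1, hP2]
    exact PHi_update (PHi.rfl' P) q hHi
  have hs1 : insert a W ⊆ range q := Finset.insert_subset (Finset.mem_range.2 (by omega)) hW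
  have hs2 : insert b W ⊆ range q := Finset.insert_subset (Finset.mem_range.2 hb) hW
  have hc : (insert a W).card = (insert b W).card := by
    rw [Finset.card_insert_of_notMem haW, Finset.card_insert_of_notMem hbW]
  rw [← hP1, ← hP2, EU_succ_av ht N q P1 (by rw [e1]; exact hs1),
    EU_succ_av ht N q P2 (by rw [e2]; exact hs2), e1, e2, ← hc]
  obtain ⟨h, hh⟩ : ∃ h, h = (insert a W).card := ⟨_, rfl⟩
  rw [← hh]
  have z0 := Z_nonneg ht0 N (h - 1)
  have z1 := Z_nonneg ht0 N h
  have z2 := Z_nonneg ht0 N (h + 1)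
  have hqa : q ∉ insert a W := notMem_of_sub hs1
  have hqb : q ∉ insert b W := notMem_of_sub hs2
  have m1 : av t ψ N q P1 (insert q (insert a W)) ≤ av t ψ N q P2 (insert q (insert b W)) :=
    av_mono ht hψ hN q hPH (Hi_insert_both hHi hqb hqa) (insert_sub_succ hs2)
      (insert_sub_succ hs1)
  have m2 : av t ψ N q P1 (insert a W) ≤ av t ψ N q P2 (insert b W) :=
    av_mono ht hψ hN q hPH hHi (sub_succ hs2) (sub_succ hs1)
  have m3 : ∀ X Y, Hi X Y → X ⊆ range q → Y ⊆ range q →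
      Z t N h * av t ψ N q P1 (insert q Y) + (h : ℝ) * (Z t N (h - 1) * av t ψ N q P1 Y) ≤
      Z t N h * av t ψ N q P2 (insert q X) + (h : ℝ) * (Z t N (h - 1) * av t ψ N q P2 X) := by
    intro X Y hXY hX hY
    have n1 : av t ψ N q P1 (insert q Y) ≤ av t ψ N q P2 (insert q X) :=
      av_mono ht hψ hN q hPH (Hi_insert_both hXY (notMem_of_sub hX) (notMem_of_sub hY))
        (insert_sub_succ hX) (insert_sub_succ hY)
    have n2 : av t ψ N q P1 Y ≤ av t ψ N q P2 X :=
      av_mono ht hψ hN q hPH hXY (sub_succ hX) (sub_succ hY)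
    have hh0 : (0 : ℝ) ≤ h := Nat.cast_nonneg h
    gcongr
  have m4 : ∑ g ∈ insert a W, (Z t N h * av t ψ N q P1 (insert q ((insert a W).erase g)) +
      (h : ℝ) * (Z t N (h - 1) * av t ψ N q P1 ((insert a W).erase g))) ≤
      ∑ g ∈ insert b W, (Z t N h * av t ψ N q P2 (insert q ((insert b W).erase g)) +
      (h : ℝ) * (Z t N (h - 1) * av t ψ N q P2 ((insert b W).erase g))) := by
    rw [Finset.sum_insert haW, Finset.sum_insert hbW, Finset.erase_insert haW,
      Finset.erase_insert hbW]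
    refine add_le_add (m3 W W (Hi.rfl' W) hW hW) (Finset.sum_le_sum fun g hg => ?_)
    have hga : g ≠ a := fun h1 => haW (h1 ▸ hg)
    have hgb : g ≠ b := fun h1 => hbW (h1 ▸ hg)
    refine m3 _ _ ?_ (erase_sub hs2) (erase_sub hs1)
    rw [erase_insert_ne hga, erase_insert_ne hgb]
    exact Hi_replace hab.le (fun h1 => haW (Finset.mem_of_mem_erase h1))
      (fun h1 => hbW (Finset.mem_of_mem_erase h1))
  have hh0 : (0 : ℝ) ≤ h := Nat.cast_nonneg h
  have m5 : ((h : ℝ) + t) * (Z t N h * av t ψ N q P1 (insert a W)) ≤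
      ((h : ℝ) + t) * (Z t N h * av t ψ N q P2 (insert b W)) := by gcongr
  have m6 : Z t N (h + 1) * av t ψ N q P1 (insert q (insert a W)) ≤
      Z t N (h + 1) * av t ψ N q P2 (insert q (insert b W)) := by gcongr
  linarith

/-- the masses -/
theorem mass_eq (t : ℝ) (N h : ℕ) :
    ((N : ℝ) + 1) * (Z t N (h + 1) + ((h : ℝ) + t) * Z t N h) =
      ((N : ℝ) + 1 - h) * Z t (N + 1) h := by
  rcases Nat.eq_zero_or_pos h with rfl | h0
  · rw [Z_succ]
    simp only [Nat.cast_zero]
    ring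
  · obtain ⟨k, rfl⟩ : ∃ k, h = k + 1 := ⟨h - 1, by omega⟩
    have e1 := Z_close t N k
    have e2 := Z_succ t N (k + 1)
    simp only [Nat.add_sub_cancel] at e2
    push_cast at e2 ⊢
    linear_combination ((k : ℝ) + 1) * e1 - ((N : ℝ) + 1) * e2

theorem mass_eq' (t : ℝ) (N h : ℕ) :
    ((N : ℝ) + 1) * (Z t N (h + 1 + 1) + ((h : ℝ) + 2 + t) * Z t N (h + 1) +
      ((h : ℝ) + 1) * Z t N h) = ((N : ℝ) + 1 - h) * Z t (N + 1) (h + 1) := by
  have e1 := Z_close t N h
  have e2 := Z_succ t N (h + 1)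
  simp only [Nat.add_sub_cancel] at e2
  push_cast at e2 ⊢
  linear_combination (h : ℝ) * e1 - ((N : ℝ) + 1) * e2

/-- removing the largest element -/
theorem step_remove (ht : 1 ≤ t) (hψ : ∀ P, 0 ≤ ψ P) {N : ℕ} (hN : MonN t ψ N) (q : ℕ)
    (P : ℕ → Finset ℕ) {X : Finset ℕ} {m : ℕ} (hX : X ⊆ range q) (hm : m < q)
    (hmX : ∀ x ∈ X, x < m) :
    EU t ψ (N + 1) q (Function.update P q (insert m X)) * Z t (N + 1) X.card ≤
      EU t ψ (N + 1) q (Function.update P q X) * Z t (N + 1) (insert m X).card := by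
  have ht0 : 0 ≤ t := by linarith
  have hmn : m ∉ X := fun h1 => absurd (hmX m h1) (lt_irrefl m)
  obtain ⟨P1, hP1⟩ : ∃ P1, P1 = Function.update P q (insert m X) := ⟨_, rfl⟩
  obtain ⟨P2, hP2⟩ : ∃ P2, P2 = Function.update P q X := ⟨_, rfl⟩
  have e1 : P1 q = insert m X := by rw [hP1, Function.update_self]
  have e2 : P2 q = X := by rw [hP2, Function.update_self]
  have hPH : PHi P2 P1 := by
    rw [hP1, hP2]
    exact PHi_update (PHi.rfl' P) q (Hi_subset (Finset.subset_insert m X))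
  have hs1 : insert m X ⊆ range q := Finset.insert_subset (Finset.mem_range.2 hm) hX
  have hc : (insert m X).card = X.card + 1 := Finset.card_insert_of_notMem hmn
  rw [← hP1, ← hP2, EU_succ_av ht N q P1 (by rw [e1]; exact hs1),
    EU_succ_av ht N q P2 (by rw [e2]; exact hX), e1, e2, hc]
  obtain ⟨h, hh⟩ : ∃ h, h = X.card := ⟨_, rfl⟩
  rw [← hh]
  rw [Finset.sum_insert hmn, Finset.erase_insert hmn]
  have hqX : q ∉ X := notMem_of_sub hX
  have z0 := Z_nonneg ht0 N (h - 1)
  have z1 := Z_nonneg ht0 N h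
  have z2 := Z_nonneg ht0 N (h + 1)
  have z3 := Z_nonneg ht0 N (h + 1 + 1)
  have y0 := Z_nonneg ht0 (N + 1) h
  have y1 := Z_nonneg ht0 (N + 1) (h + 1)
  have hh0 : (0 : ℝ) ≤ h := Nat.cast_nonneg h
  have hN0 : (0 : ℝ) ≤ N := Nat.cast_nonneg N
  simp only [Nat.add_sub_cancel]
  -- the comparisons
  obtain ⟨a1, ha1⟩ : ∃ x, x = av t ψ N q P2 X := ⟨_, rfl⟩
  obtain ⟨a2, ha2⟩ : ∃ x, x = av t ψ N q P2 (insert q X) := ⟨_, rfl⟩
  obtain ⟨b2, hb2⟩ : ∃ x, x = av t ψ N q P1 (insert m X) := ⟨_, rfl⟩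
  obtain ⟨b3, hb3⟩ : ∃ x, x = av t ψ N q P1 (insert q (insert m X)) := ⟨_, rfl⟩
  obtain ⟨c1, hc1⟩ : ∃ x, x = av t ψ N q P1 X := ⟨_, rfl⟩
  obtain ⟨c2, hc2⟩ : ∃ x, x = av t ψ N q P1 (insert q X) := ⟨_, rfl⟩
  have k1 : a2 ≤ a1 := by
    rw [ha1, ha2]
    exact av_mono ht hψ hN q (PHi.rfl' _) (Hi_subset (Finset.subset_insert q X)) (sub_succ hX)
      (insert_sub_succ hX)
  have k2 : b2 ≤ a2 := by
    rw [hb2, ha2]
    exact av_mono ht hψ hN q hPH (Hi_replace hm.le hmn hqX) (insert_sub_succ hX) (sub_succ hs1)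
  have k3 : b3 ≤ a2 := by
    refine le_trans ?_ k2
    rw [hb2, hb3]
    exact av_mono ht hψ hN q (PHi.rfl' _) (Hi_subset (Finset.subset_insert q _)) (sub_succ hs1)
      (insert_sub_succ hs1)
  have k4 : c1 ≤ a1 := by
    rw [hc1, ha1]
    exact av_mono ht hψ hN q hPH (Hi.rfl' X) (sub_succ hX) (sub_succ hX)
  have k5 : c2 ≤ a2 := by
    rw [hc2, ha2]
    exact av_mono ht hψ hN q hPH (Hi.rfl' _) (insert_sub_succ hX) (insert_sub_succ hX)
  rw [← ha1, ← ha2, ← hb2, ← hb3, ← hc1, ← hc2]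
  -- the closed part
  have hsum : Z t (N + 1) h * ∑ g ∈ X, (Z t N (h + 1) * av t ψ N q P1
        (insert q ((insert m X).erase g)) + ((h + 1 : ℕ) : ℝ) * (Z t N h *
        av t ψ N q P1 ((insert m X).erase g))) ≤
      Z t (N + 1) (h + 1) * ∑ g ∈ X, (Z t N h * av t ψ N q P2 (insert q (X.erase g)) +
        (h : ℝ) * (Z t N (h - 1) * av t ψ N q P2 (X.erase g))) := by
    rw [Finset.mul_sum, Finset.mul_sum]
    refine Finset.sum_le_sum fun g hg => ?_
    have hgm : g ≠ m := fun h1 => hmn (h1 ▸ hg)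
    have hge : g ∈ X := hg
    have hXg : X.erase g ⊆ range q := erase_sub hX
    have hYg : (insert m X).erase g ⊆ range q := erase_sub hs1
    obtain ⟨w, hw⟩ : ∃ w, w = av t ψ N q P2 (insert q (X.erase g)) := ⟨_, rfl⟩
    have j1 : w ≤ av t ψ N q P2 (X.erase g) := by
      rw [hw]
      exact av_mono ht hψ hN q (PHi.rfl' _) (Hi_subset (Finset.subset_insert q _))
        (sub_succ hXg) (insert_sub_succ hXg)
    have j2 : av t ψ N q P1 ((insert m X).erase g) ≤ w := by
      rw [hw]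
      refine av_mono ht hψ hN q hPH ?_ (insert_sub_succ hXg) (sub_succ hYg)
      rw [erase_insert_ne hgm]
      exact Hi_replace hm.le (fun h1 => hmn (Finset.mem_of_mem_erase h1)) (notMem_of_sub hXg)
    have j3 : av t ψ N q P1 (insert q ((insert m X).erase g)) ≤ w := by
      refine le_trans ?_ j2
      exact av_mono ht hψ hN q (PHi.rfl' _) (Hi_subset (Finset.subset_insert q _))
        (sub_succ hYg) (insert_sub_succ hYg)
    have hw0 : 0 ≤ w := by rw [hw]; exact av_nonneg ht hψ _ _ _ _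
    have hhpos : 1 ≤ h := by
      rw [hh]
      exact Finset.card_pos.2 ⟨g, hg⟩
    obtain ⟨k, hk⟩ : ∃ k, h = k + 1 := ⟨h - 1, by omega⟩
    have q1 : Z t (N + 1) h = ((N : ℝ) + 1) * (Z t N h + (h : ℝ) * Z t N (h - 1)) := by
      rw [hk, Z_close t N k]
      simp only [Nat.add_sub_cancel]
      push_cast
      ring
    have q2 : Z t (N + 1) (h + 1) = ((N : ℝ) + 1) * (Z t N (h + 1) + ((h : ℝ) + 1) * Z t N h) :=
      Z_close t N h
    rw [← hw]
    push_cast
    have s1 : Z t N (h + 1) * av t ψ N q P1 (insert q ((insert m X).erase g)) +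
        ((h : ℝ) + 1) * (Z t N h * av t ψ N q P1 ((insert m X).erase g)) ≤
        (Z t N (h + 1) + ((h : ℝ) + 1) * Z t N h) * w := by
      have r1 : Z t N (h + 1) * av t ψ N q P1 (insert q ((insert m X).erase g)) ≤
          Z t N (h + 1) * w := mul_le_mul_of_nonneg_left j3 z2
      have r2 : ((h : ℝ) + 1) * (Z t N h * av t ψ N q P1 ((insert m X).erase g)) ≤
          ((h : ℝ) + 1) * (Z t N h * w) := by gcongr
      linarith
    have s2 : (Z t N h + (h : ℝ) * Z t N (h - 1)) * w ≤ Z t N h * w +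
        (h : ℝ) * (Z t N (h - 1) * av t ψ N q P2 (X.erase g)) := by
      have r1 : (h : ℝ) * (Z t N (h - 1) * w) ≤
          (h : ℝ) * (Z t N (h - 1) * av t ψ N q P2 (X.erase g)) := by gcongr
      linarith
    calc Z t (N + 1) h * _ ≤ Z t (N + 1) h * ((Z t N (h + 1) + ((h : ℝ) + 1) * Z t N h) * w) :=
          mul_le_mul_of_nonneg_left s1 y0
      _ = Z t (N + 1) (h + 1) * ((Z t N h + (h : ℝ) * Z t N (h - 1)) * w) := by
          rw [q1, q2]; ring
      _ ≤ _ := mul_le_mul_of_nonneg_left s2 y1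
  -- the other part
  have hrest : Z t (N + 1) h * (Z t N (h + 1 + 1) * b3 + ((h : ℝ) + 1 + t) * (Z t N (h + 1) * b2) +
      (Z t N (h + 1) * c2 + ((h : ℝ) + 1) * (Z t N h * c1))) ≤
      Z t (N + 1) (h + 1) * (Z t N (h + 1) * a2 + ((h : ℝ) + t) * (Z t N h * a1)) := by
    have r1 : Z t N (h + 1 + 1) * b3 ≤ Z t N (h + 1 + 1) * a2 := mul_le_mul_of_nonneg_left k3 z3
    have r2 : ((h : ℝ) + 1 + t) * (Z t N (h + 1) * b2) ≤
        ((h : ℝ) + 1 + t) * (Z t N (h + 1) * a2) := by gcongr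
    have r3 : Z t N (h + 1) * c2 ≤ Z t N (h + 1) * a2 := mul_le_mul_of_nonneg_left k5 z2
    have r4 : ((h : ℝ) + 1) * (Z t N h * c1) ≤ ((h : ℝ) + 1) * (Z t N h * a1) := by gcongr
    have r5 : Z t N (h + 1 + 1) * b3 + ((h : ℝ) + 1 + t) * (Z t N (h + 1) * b2) +
      (Z t N (h + 1) * c2 + ((h : ℝ) + 1) * (Z t N h * c1)) ≤
      (Z t N (h + 1 + 1) + ((h : ℝ) + 2 + t) * Z t N (h + 1) + ((h : ℝ) + 1) * Z t N h) * a2 +
        ((h : ℝ) + 1) * Z t N h * (a1 - a2) := by nlinarith
    have m1 := mass_eq t N h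
    have m2 := mass_eq' t N h
    have m3 : Z t (N + 1) h * (Z t N (h + 1 + 1) + ((h : ℝ) + 2 + t) * Z t N (h + 1) +
        ((h : ℝ) + 1) * Z t N h) = Z t (N + 1) (h + 1) * (Z t N (h + 1) +
        ((h : ℝ) + t) * Z t N h) := by
      have hne : ((N : ℝ) + 1) ≠ 0 := by positivity
      have e : ((N : ℝ) + 1) * (Z t (N + 1) h * (Z t N (h + 1 + 1) + ((h : ℝ) + 2 + t) *
          Z t N (h + 1) + ((h : ℝ) + 1) * Z t N h)) = ((N : ℝ) + 1) * (Z t (N + 1) (h + 1) *
          (Z t N (h + 1) + ((h : ℝ) + t) * Z t N h)) := by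
        linear_combination (Z t (N + 1) h) * m2 - (Z t (N + 1) (h + 1)) * m1
      exact mul_left_cancel₀ hne e
    have m4 : Z t (N + 1) h * (((h : ℝ) + 1) * Z t N h) ≤
        Z t (N + 1) (h + 1) * (((h : ℝ) + t) * Z t N h) := by
      rcases Nat.lt_or_ge N h with h1 | h1
      · rw [Z_eq_zero t N h h1]; simp
      · have e := Z_c1 ht (N + 1) h (by omega)
        have e' := mul_le_mul_of_nonneg_right e z1
        linarith
    have m5 : Z t (N + 1) h * (((h : ℝ) + 1) * Z t N h * (a1 - a2)) ≤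
        Z t (N + 1) (h + 1) * (((h : ℝ) + t) * Z t N h * (a1 - a2)) := by
      have e := mul_le_mul_of_nonneg_right m4 (sub_nonneg.2 k1)
      linarith
    have m6 := mul_le_mul_of_nonneg_left r5 y0
    calc _ ≤ _ := m6
      _ = Z t (N + 1) h * (Z t N (h + 1 + 1) + ((h : ℝ) + 2 + t) * Z t N (h + 1) +
          ((h : ℝ) + 1) * Z t N h) * a2 + Z t (N + 1) h * (((h : ℝ) + 1) * Z t N h * (a1 - a2)) := by
          ring
      _ ≤ Z t (N + 1) (h + 1) * (Z t N (h + 1) + ((h : ℝ) + t) * Z t N h) * a2 +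
          Z t (N + 1) (h + 1) * (((h : ℝ) + t) * Z t N h * (a1 - a2)) := by
          rw [m3]; linarith
      _ = _ := by ring
  push_cast at hsum ⊢
  refine le_trans (le_of_eq ?_) (le_trans (add_le_add hrest hsum) (le_of_eq ?_)) <;> ring

/-- **Monotonicity.** -/
theorem EU_mono (ht : 1 ≤ t) (hψ : ∀ P, 0 ≤ ψ P) (hm : MonoP ψ) (N : ℕ) : MonN t ψ N := by
  have ht0 : 0 ≤ t := by linarith
  induction N with
  | zero =>
    intro q P P' h hP hP'
    unfold EU
    by_cases h1 : P' q = ∅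
    · have h2 : P q = ∅ := by
        have := (h q).card
        rw [h1, Finset.card_empty] at this
        exact Finset.card_eq_zero.1 (by omega)
      rw [if_pos h1, if_pos h2, h1, h2]
      exact mul_le_mul_of_nonneg_right (hm P P' h) (Z_nonneg ht0 _ _)
    · rw [if_neg h1, zero_mul]
      refine mul_nonneg ?_ (Z_nonneg ht0 _ _)
      split_ifs
      · exact hψ P
      · exact le_rfl
  | succ N ih =>
    intro q P P' h hP hP'
    have key := Hi_ind (q := q) (fun A B => EU t ψ (N + 1) q (Function.update P q B) *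
        Z t (N + 1) A.card ≤ EU t ψ (N + 1) q (Function.update P q A) * Z t (N + 1) B.card)
      (fun A => le_rfl) ?_ ?_ ?_ (∑ x ∈ P' q, (q - x)) (P q) (P' q) le_rfl hP hP' (h q)
    · have h1 : EU t ψ (N + 1) q P' ≤ EU t ψ (N + 1) q (Function.update P q (P' q)) := by
        refine EU_same ht0 hm (N + 1) q _ _ ?_ (by rw [Function.update_self])
        intro s
        by_cases hs : s = q
        · rw [hs, Function.update_self]; exact Hi.rfl' _
        · rw [Function.update_of_ne hs]; exact h s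
      have h2 : Function.update P q (P q) = P := Function.update_eq_self q P
      simp only [h2] at key
      exact (mul_le_mul_of_nonneg_right h1 (Z_nonneg ht0 _ _)).trans key
    · intro A B C hA hB hC h1 h2 c1 c2
      rcases Nat.lt_or_ge (N + 1) B.card with h3 | h3
      · have h4 : EU t ψ (N + 1) q (Function.update P q C) = 0 :=
          EU_eq_zero (N + 1) q _ (by rw [Function.update_self]; exact hC)
            (by rw [Function.update_self]; omega)
        show EU t ψ (N + 1) q (Function.update P q C) * _ ≤ _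
        rw [h4, zero_mul]
        exact mul_nonneg (EU_nonneg ht0 hψ _ _ _) (Z_nonneg ht0 _ _)
      · have h4 := Z_pos ht (N + 1) _ h3
        have z1 := Z_nonneg ht0 (N + 1) A.card
        have z3 := Z_nonneg ht0 (N + 1) C.card
        have h1' := mul_le_mul_of_nonneg_right h1 z3
        have h2' := mul_le_mul_of_nonneg_right h2 z1
        have h5 : EU t ψ (N + 1) q (Function.update P q C) * Z t (N + 1) A.card *
            Z t (N + 1) B.card ≤ EU t ψ (N + 1) q (Function.update P q A) * Z t (N + 1) C.card *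
            Z t (N + 1) B.card := by
          linarith
        exact le_of_mul_le_mul_right h5 h4
    · intro X m hX hm' hmX
      exact step_remove ht hψ ih q P hX hm' hmX
    · intro W a b hab hb hW haW hbW
      have e := step_replace ht hψ ih q P hab hb hW haW hbW
      have hc : (insert a W).card = (insert b W).card := by
        rw [Finset.card_insert_of_notMem haW, Finset.card_insert_of_notMem hbW]
      show EU t ψ (N + 1) q (Function.update P q (insert a W)) *
        Z t (N + 1) (insert b W).card ≤ EU t ψ (N + 1) q (Function.update P q (insert b W)) *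
        Z t (N + 1) (insert a W).card
      rw [hc]
      exact mul_le_mul_of_nonneg_right e (Z_nonneg ht0 _ _)

end Pool.Agent.H.MP_f011a7_co.One
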