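import Pool.Agent.H.MP_f011a7_co.One.Mo

/-!
# MP_f011a7_co, one-sided up-sets: positive association of the path functions
-/

set_option autoImplicit false

namespace Pool.Agent.H.MP_f011a7_co.One

open Finset

variable {t : ℝ} {ψ ψ1 ψ2 : (ℕ → Finset ℕ) → ℝ}

theorem three_block {Wc w1 w2 C C' S x x' y y' : ℝ} (hW : 0 ≤ Wc) (h1 : 0 ≤ w1) (h2 : 0 ≤ w2)
    (hS : C * C' ≤ Wc * S) (hC : Wc * x ≤ C) (hC' : Wc * x' ≤ C') (hy : y ≤ x) (hy' : y' ≤ x')
    (h0 : Wc = 0 → C = 0 ∧ C' = 0 ∧ 0 ≤ S) :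
    (C + w1 * x + w2 * y) * (C' + w1 * x' + w2 * y') ≤
      (Wc + w1 + w2) * (S + w1 * (x * x') + w2 * (y * y')) := by
  have e12 : 0 ≤ w1 * w2 * ((x - y) * (x' - y')) :=
    mul_nonneg (mul_nonneg h1 h2) (mul_nonneg (sub_nonneg.2 hy) (sub_nonneg.2 hy'))
  rcases hW.eq_or_lt with hW0 | hW0
  · obtain ⟨c1, c2, c3⟩ := h0 hW0.symm
    rw [← hW0, c1, c2]
    have e3 : 0 ≤ (w1 + w2) * S := mul_nonneg (by linarith) c3
    nlinarith
  · have T : ∀ u u' : ℝ, Wc * u ≤ C → Wc * u' ≤ C' → 0 ≤ Wc * (u * u') + S - C * u' - C' * u := by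
      intro u u' hu hu'
      have e4 : 0 ≤ (C - Wc * u) * (C' - Wc * u') :=
        mul_nonneg (sub_nonneg.2 hu) (sub_nonneg.2 hu')
      have e5 : 0 ≤ Wc * (Wc * (u * u') + S - C * u' - C' * u) := by nlinarith
      exact nonneg_of_mul_nonneg_right e5 hW0
    have t1 := mul_nonneg h1 (T x x' hC hC')
    have t2 := mul_nonneg h2 (T y y' ((mul_le_mul_of_nonneg_left hy hW).trans hC)
      ((mul_le_mul_of_nonneg_left hy' hW).trans hC'))
    nlinarith

theorem pair_block {e d E D E' D' : ℝ} (he : 0 ≤ e) (hd : 0 ≤ d) (h : E ≤ D) (h' : E' ≤ D') :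
    (e * E + d * D) * (e * E' + d * D') ≤ (e + d) * (e * (E * E') + d * (D * D')) := by
  have := mul_nonneg (mul_nonneg he hd) (mul_nonneg (sub_nonneg.2 h) (sub_nonneg.2 h'))
  nlinarith

/-- removing a smaller element gives a higher state -/
theorem Hi_erase_lt {A : Finset ℕ} {g g' : ℕ} (hlt : g < g') (hg : g ∈ A) (hg' : g' ∈ A) :
    Hi (A.erase g) (A.erase g') := by
  have e1 : A.erase g = insert g' ((A.erase g).erase g') := by
    rw [Finset.insert_erase]
    exact Finset.mem_erase.2 ⟨(ne_of_gt hlt), hg'⟩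
  have e2 : A.erase g' = insert g ((A.erase g).erase g') := by
    rw [Finset.erase_right_comm, Finset.insert_erase]
    exact Finset.mem_erase.2 ⟨(ne_of_lt hlt), hg⟩
  rw [e1, e2]
  refine Hi_replace hlt.le ?_ (Finset.notMem_erase _ _)
  intro h
  exact Finset.notMem_erase g A (Finset.mem_of_mem_erase h)

theorem Hi_erase_insert {A : Finset ℕ} {g q : ℕ} (hA : A ⊆ range q) (hg : g ∈ A) :
    Hi (insert q (A.erase g)) A := by
  have e : Hi (insert q (A.erase g)) (insert g (A.erase g)) :=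
    Hi_replace (Finset.mem_range.1 (hA hg)).le (Finset.notMem_erase _ _)
      (notMem_of_sub (erase_sub hA))
  rwa [Finset.insert_erase hg] at e

theorem prod_ge (ht : 1 ≤ t) {N q : ℕ} {P : ℕ → Finset ℕ} {X : Finset ℕ}
    (hX : X ⊆ range (q + 1)) {J : ℝ} (hJ : 0 ≤ J)
    (h : EU t ψ1 N (q + 1) (st P q X) * EU t ψ2 N (q + 1) (st P q X) ≤ Z t N X.card * J) :
    Z t N X.card * (av t ψ1 N q P X * av t ψ2 N q P X) ≤ J := by
  rcases Nat.lt_or_ge N X.card with h1 | h1
  · rw [Z_eq_zero t N _ h1, zero_mul]; exact hJ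
  · rw [EU_eq_av ht N q P hX, EU_eq_av ht N q P hX] at h
    have h2 := Z_pos ht N _ h1
    have h3 : Z t N X.card * (Z t N X.card * (av t ψ1 N q P X * av t ψ2 N q P X)) ≤
        Z t N X.card * J := by linarith
    exact le_of_mul_le_mul_left h3 h2

/-- **Positive association of functions of the open positions.** -/
theorem EU_pa (ht : 1 ≤ t) (h1 : ∀ P, 0 ≤ ψ1 P) (m1 : MonoP ψ1) (h2 : ∀ P, 0 ≤ ψ2 P)
    (m2 : MonoP ψ2) (N : ℕ) : ∀ q P, P q ⊆ range q →
    EU t ψ1 N q P * EU t ψ2 N q P ≤ Z t N (P q).card * EU t (fun P => ψ1 P * ψ2 P) N q P := by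
  have ht0 : 0 ≤ t := by linarith
  induction N with
  | zero =>
    intro q P hP
    unfold EU
    by_cases h : P q = ∅
    · rw [if_pos h, if_pos h, if_pos h, h, Finset.card_empty, Z_zero_zero, one_mul]
    · rw [if_neg h, if_neg h, if_neg h]; simp
  | succ N ih =>
    intro q P hP
    have hnn : ∀ X, 0 ≤ EU t (fun P => ψ1 P * ψ2 P) N (q + 1) (st P q X) := fun X =>
      EU_nonneg ht0 (fun P => mul_nonneg (h1 P) (h2 P)) _ _ _
    have hge : ∀ X, X ⊆ range (q + 1) → Z t N X.card * (av t ψ1 N q P X * av t ψ2 N q P X) ≤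
        EU t (fun P => ψ1 P * ψ2 P) N (q + 1) (st P q X) := by
      intro X hX
      refine prod_ge ht hX (hnn X) ?_
      have := ih (q + 1) (st P q X) (by rw [st_self]; exact hX)
      rwa [st_self] at this
    rw [EU_succ_av ht N q P hP, EU_succ_av ht N q P hP]
    obtain ⟨h, hh⟩ : ∃ h, h = (P q).card := ⟨_, rfl⟩
    have M1 := EU_mono ht h1 m1 N
    have M2 := EU_mono ht h2 m2 N
    have z0 := Z_nonneg ht0 N (h - 1)
    have z1 := Z_nonneg ht0 N h
    have z2 := Z_nonneg ht0 N (h + 1)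
    have hh0 : (0 : ℝ) ≤ h := Nat.cast_nonneg h
    have hE : ∀ (χ : (ℕ → Finset ℕ) → ℝ), (∀ P, 0 ≤ χ P) → MonN t χ N → ∀ g ∈ P q,
        av t χ N q P (insert q ((P q).erase g)) ≤ av t χ N q P ((P q).erase g) ∧
        av t χ N q P (P q) ≤ av t χ N q P (insert q ((P q).erase g)) := by
      intro χ hχ Mχ g hg
      exact ⟨av_mono ht hχ Mχ q (PHi.rfl' _) (Hi_subset (Finset.subset_insert _ _))
          (sub_succ (erase_sub hP)) (insert_sub_succ (erase_sub hP)),
        av_mono ht hχ Mχ q (PHi.rfl' _) (Hi_erase_insert hP hg)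
          (insert_sub_succ (erase_sub hP)) (sub_succ hP)⟩
    have hA : ∀ (χ : (ℕ → Finset ℕ) → ℝ), (∀ P, 0 ≤ χ P) → MonN t χ N → ∀ g ∈ P q, ∀ g' ∈ P q,
        g < g' → Z t N h * av t χ N q P (insert q ((P q).erase g')) +
          (h : ℝ) * (Z t N (h - 1) * av t χ N q P ((P q).erase g')) ≤
          Z t N h * av t χ N q P (insert q ((P q).erase g)) +
          (h : ℝ) * (Z t N (h - 1) * av t χ N q P ((P q).erase g)) := by
      intro χ hχ Mχ g hg g' hg' hlt
      have i1 := Hi_erase_lt hlt hg hg'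
      have i2 : av t χ N q P ((P q).erase g') ≤ av t χ N q P ((P q).erase g) :=
        av_mono ht hχ Mχ q (PHi.rfl' _) i1 (sub_succ (erase_sub hP)) (sub_succ (erase_sub hP))
      have i3 : av t χ N q P (insert q ((P q).erase g')) ≤
          av t χ N q P (insert q ((P q).erase g)) :=
        av_mono ht hχ Mχ q (PHi.rfl' _) (Hi_insert_both i1 (notMem_of_sub (erase_sub hP))
          (notMem_of_sub (erase_sub hP))) (insert_sub_succ (erase_sub hP))
          (insert_sub_succ (erase_sub hP))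
      gcongr
    -- abbreviations
    obtain ⟨E, hEd⟩ : ∃ E : ℕ → ℝ, E = fun g => av t ψ1 N q P (insert q ((P q).erase g)) :=
      ⟨_, rfl⟩
    obtain ⟨D, hDd⟩ : ∃ D : ℕ → ℝ, D = fun g => av t ψ1 N q P ((P q).erase g) := ⟨_, rfl⟩
    obtain ⟨E', hEd'⟩ : ∃ E : ℕ → ℝ, E = fun g => av t ψ2 N q P (insert q ((P q).erase g)) :=
      ⟨_, rfl⟩
    obtain ⟨D', hDd'⟩ : ∃ D : ℕ → ℝ, D = fun g => av t ψ2 N q P ((P q).erase g) := ⟨_, rfl⟩
    obtain ⟨x, hx⟩ : ∃ x, x = av t ψ1 N q P (P q) := ⟨_, rfl⟩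
    obtain ⟨x', hx'⟩ : ∃ x, x = av t ψ2 N q P (P q) := ⟨_, rfl⟩
    obtain ⟨y, hy⟩ : ∃ x, x = av t ψ1 N q P (insert q (P q)) := ⟨_, rfl⟩
    obtain ⟨y', hy'⟩ : ∃ x, x = av t ψ2 N q P (insert q (P q)) := ⟨_, rfl⟩
    obtain ⟨e, he⟩ : ∃ e, e = Z t N h := ⟨_, rfl⟩
    obtain ⟨d, hd⟩ : ∃ d, d = (h : ℝ) * Z t N (h - 1) := ⟨_, rfl⟩
    have he0 : 0 ≤ e := by rw [he]; exact z1
    have hd0 : 0 ≤ d := by rw [hd]; positivity
    have hED : ∀ g ∈ P q, E g ≤ D g ∧ x ≤ E g := by
      intro g hg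
      rw [hEd, hDd, hx]
      exact hE ψ1 h1 M1 g hg
    have hED' : ∀ g ∈ P q, E' g ≤ D' g ∧ x' ≤ E' g := by
      intro g hg
      rw [hEd', hDd', hx']
      exact hE ψ2 h2 M2 g hg
    have hyx : y ≤ x := by
      rw [hx, hy]
      exact av_mono ht h1 M1 q (PHi.rfl' _) (Hi_subset (Finset.subset_insert _ _)) (sub_succ hP)
        (insert_sub_succ hP)
    have hyx' : y' ≤ x' := by
      rw [hx', hy']
      exact av_mono ht h2 M2 q (PHi.rfl' _) (Hi_subset (Finset.subset_insert _ _)) (sub_succ hP)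
        (insert_sub_succ hP)
    have anti : ∀ g ∈ P q, ∀ g' ∈ P q, g < g' → e * E g' + d * D g' ≤ e * E g + d * D g := by
      intro g hg g' hg' hlt
      have := hA ψ1 h1 M1 g hg g' hg' hlt
      rw [hEd, hDd, he, hd]
      simp only
      linarith
    have anti' : ∀ g ∈ P q, ∀ g' ∈ P q, g < g' → e * E' g' + d * D' g' ≤ e * E' g + d * D' g := by
      intro g hg g' hg' hlt
      have := hA ψ2 h2 M2 g hg g' hg' hlt
      rw [hEd', hDd', he, hd]
      simp only
      linarith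
    have cheb := MonovaryOn.sum_mul_sum_le_card_mul_sum
      (f := fun g => e * E g + d * D g) (g := fun g => e * E' g + d * D' g) (s := P q) (by
        intro g hg g' hg' hlt
        rcases lt_trichotomy g g' with h3 | h3 | h3
        · exact absurd (anti' g hg g' hg' h3) (not_le.2 hlt)
        · rw [h3] at hlt; exact absurd hlt (lt_irrefl _)
        · exact anti g' hg' g hg h3)
    have hSle : ∑ g ∈ P q, (e * E g + d * D g) * (e * E' g + d * D' g) ≤
        (e + d) * ∑ g ∈ P q, (e * (E g * E' g) + d * (D g * D' g)) := by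
      rw [Finset.mul_sum]
      exact Finset.sum_le_sum fun g hg => pair_block he0 hd0 (hED g hg).1 (hED' g hg).1
    rw [← hh] at cheb
    have hS : (∑ g ∈ P q, (e * E g + d * D g)) * (∑ g ∈ P q, (e * E' g + d * D' g)) ≤
        ((h : ℝ) * (e + d)) * ∑ g ∈ P q, (e * (E g * E' g) + d * (D g * D' g)) := by
      refine cheb.trans ?_
      have := mul_le_mul_of_nonneg_left hSle hh0
      linarith
    have hCx : ((h : ℝ) * (e + d)) * x ≤ ∑ g ∈ P q, (e * E g + d * D g) := by
      have e3 : ((h : ℝ) * (e + d)) * x = ∑ _g ∈ P q, (e * x + d * x) := by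
        rw [Finset.sum_const, nsmul_eq_mul, ← hh]; ring
      rw [e3]
      refine Finset.sum_le_sum fun g hg => ?_
      obtain ⟨i1, i2⟩ := hED g hg
      exact add_le_add (mul_le_mul_of_nonneg_left i2 he0)
        (mul_le_mul_of_nonneg_left (i2.trans i1) hd0)
    have hCx' : ((h : ℝ) * (e + d)) * x' ≤ ∑ g ∈ P q, (e * E' g + d * D' g) := by
      have e3 : ((h : ℝ) * (e + d)) * x' = ∑ _g ∈ P q, (e * x' + d * x') := by
        rw [Finset.sum_const, nsmul_eq_mul, ← hh]; ring
      rw [e3]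
      refine Finset.sum_le_sum fun g hg => ?_
      obtain ⟨i1, i2⟩ := hED' g hg
      exact add_le_add (mul_le_mul_of_nonneg_left i2 he0)
        (mul_le_mul_of_nonneg_left (i2.trans i1) hd0)
    have hzero : (h : ℝ) * (e + d) = 0 → (∑ g ∈ P q, (e * E g + d * D g)) = 0 ∧
        (∑ g ∈ P q, (e * E' g + d * D' g)) = 0 ∧
        0 ≤ ∑ g ∈ P q, (e * (E g * E' g) + d * (D g * D' g)) := by
      intro h3
      have h4 : (h : ℝ) = 0 ∨ (e = 0 ∧ d = 0) := by
        rcases mul_eq_zero.1 h3 with h5 | h5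
        · exact Or.inl h5
        · exact Or.inr ⟨by linarith, by linarith⟩
      rcases h4 with h4 | ⟨h4, h5⟩
      · have h6 : P q = ∅ := by
          rw [← Finset.card_eq_zero, ← hh]
          exact_mod_cast h4
        rw [h6]; simp
      · rw [h4, h5]; simp
    have fin := three_block (w1 := ((h : ℝ) + t) * e) (w2 := Z t N (h + 1))
      (mul_nonneg hh0 (add_nonneg he0 hd0)) (by positivity) z2 hS hCx hCx' hyx hyx' hzero
    -- the product side
    have hprod : (∑ g ∈ P q, (e * (E g * E' g) + d * (D g * D' g))) +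
        ((h : ℝ) + t) * e * (x * x') + Z t N (h + 1) * (y * y') ≤
        EU t (fun P => ψ1 P * ψ2 P) (N + 1) q P := by
      rw [EU, ← hh]
      have p1 := hge (insert q (P q)) (insert_sub_succ hP)
      have p2 := hge (P q) (sub_succ hP)
      rw [card_ins hP, ← hh, ← hy, ← hy'] at p1
      rw [← hh, ← hx, ← hx', ← he] at p2
      have p3 : ∑ g ∈ P q, (e * (E g * E' g) + d * (D g * D' g)) ≤
          ∑ g ∈ P q, (EU t (fun P => ψ1 P * ψ2 P) N (q + 1) (st P q (insert q ((P q).erase g))) +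
            (h : ℝ) * EU t (fun P => ψ1 P * ψ2 P) N (q + 1) (st P q ((P q).erase g))) := by
        refine Finset.sum_le_sum fun g hg => ?_
        have r1 := hge (insert q ((P q).erase g)) (insert_sub_succ (erase_sub hP))
        have r2 := hge ((P q).erase g) (sub_succ (erase_sub hP))
        rw [card_ins_erase hP hg, ← hh, ← he] at r1
        rw [Finset.card_erase_of_mem hg, ← hh] at r2
        have r3 := mul_le_mul_of_nonneg_left r2 hh0
        rw [hEd, hEd', hDd, hDd', hd]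
        simp only
        linarith
      have p4 : ((h : ℝ) + t) * e * (x * x') ≤ ((h : ℝ) + t) *
          EU t (fun P => ψ1 P * ψ2 P) N (q + 1) (st P q (P q)) := by
        have := mul_le_mul_of_nonneg_left p2 (by positivity : (0 : ℝ) ≤ (h : ℝ) + t)
        linarith
      linarith
    have hZ : Z t (N + 1) h = (h : ℝ) * (e + d) + ((h : ℝ) + t) * e + Z t N (h + 1) := by
      rw [Z_succ, he, hd]; ring
    have hZ0 : 0 ≤ Z t (N + 1) h := Z_nonneg ht0 _ _
    have hL : ∀ (χ : (ℕ → Finset ℕ) → ℝ), Z t N ((P q).card + 1) * av t χ N q P (insert q (P q)) +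
        (((P q).card : ℝ) + t) * (Z t N (P q).card * av t χ N q P (P q)) +
        ∑ g ∈ P q, (Z t N (P q).card * av t χ N q P (insert q ((P q).erase g)) +
        ((P q).card : ℝ) * (Z t N ((P q).card - 1) * av t χ N q P ((P q).erase g))) =
        (∑ g ∈ P q, (e * av t χ N q P (insert q ((P q).erase g)) +
        d * av t χ N q P ((P q).erase g))) + ((h : ℝ) + t) * e * av t χ N q P (P q) +
        Z t N (h + 1) * av t χ N q P (insert q (P q)) := by
      intro χ
      rw [← hh, he, hd]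
      have : ∀ g ∈ P q, Z t N h * av t χ N q P (insert q ((P q).erase g)) +
          (h : ℝ) * (Z t N (h - 1) * av t χ N q P ((P q).erase g)) =
          Z t N h * av t χ N q P (insert q ((P q).erase g)) +
          (h : ℝ) * Z t N (h - 1) * av t χ N q P ((P q).erase g) := fun g _ => by ring
      rw [Finset.sum_congr rfl this]
      ring
    rw [hL ψ1, hL ψ2, ← hx, ← hx', ← hy, ← hy', ← hh, hZ]
    have hEE : ∀ g, av t ψ1 N q P (insert q ((P q).erase g)) = E g := fun g => by rw [hEd]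
    have hDD : ∀ g, av t ψ1 N q P ((P q).erase g) = D g := fun g => by rw [hDd]
    have hEE' : ∀ g, av t ψ2 N q P (insert q ((P q).erase g)) = E' g := fun g => by rw [hEd']
    have hDD' : ∀ g, av t ψ2 N q P ((P q).erase g) = D' g := fun g => by rw [hDd']
    simp only [hEE, hDD, hEE', hDD']
    refine fin.trans ?_
    rw [← hZ]
    exact mul_le_mul_of_nonneg_left hprod hZ0

end Pool.Agent.H.MP_f011a7_co.One
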