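import Mathlib

/-!
# MP_f011a7_co, one-sided up-sets: the number of completions

`Z t N h` is the weighted number of ways to complete a state with `h` open positions, `h` open
values and `N` sites left.
-/

set_option autoImplicit false

namespace Pool.Agent.H.MP_f011a7_co.One

/-- weighted number of completions -/
noncomputable def Z (t : ℝ) : ℕ → ℕ → ℝ
  | 0, h => if h = 0 then 1 else 0
  | N + 1, h => (t + 2 * h) * Z t N h + (h : ℝ) ^ 2 * Z t N (h - 1) + Z t N (h + 1)

theorem Z_succ (t : ℝ) (N h : ℕ) :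
    Z t (N + 1) h = (t + 2 * h) * Z t N h + (h : ℝ) ^ 2 * Z t N (h - 1) + Z t N (h + 1) := rfl

theorem Z_zero_zero (t : ℝ) : Z t 0 0 = 1 := by simp [Z]

theorem Z_zero_pos (t : ℝ) {h : ℕ} (hh : h ≠ 0) : Z t 0 h = 0 := by simp [Z, hh]

theorem Z_eq_zero (t : ℝ) (N : ℕ) : ∀ h, N < h → Z t N h = 0 := by
  induction N with
  | zero => intro h hh; exact Z_zero_pos t (by omega)
  | succ N ih =>
    intro h hh
    rw [Z_succ, ih h (by omega), ih (h - 1) (by omega), ih (h + 1) (by omega)]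
    ring

theorem Z_nonneg {t : ℝ} (ht : 0 ≤ t) (N : ℕ) : ∀ h, 0 ≤ Z t N h := by
  induction N with
  | zero =>
    intro h
    rcases Nat.eq_zero_or_pos h with rfl | h0
    · rw [Z_zero_zero]; norm_num
    · rw [Z_zero_pos t (by omega)]
  | succ N ih =>
    intro h
    rw [Z_succ]
    have h1 := ih h
    have h2 := ih (h - 1)
    have h3 := ih (h + 1)
    positivity

theorem Z_pos {t : ℝ} (ht : 1 ≤ t) (N : ℕ) : ∀ h, h ≤ N → 0 < Z t N h := by
  have ht0 : 0 ≤ t := by linarith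
  induction N with
  | zero =>
    intro h hh
    have : h = 0 := by omega
    rw [this, Z_zero_zero]; norm_num
  | succ N ih =>
    intro h hh
    rw [Z_succ]
    have h1 := Z_nonneg ht0 N h
    have h2 := Z_nonneg ht0 N (h - 1)
    have h3 := Z_nonneg ht0 N (h + 1)
    rcases Nat.lt_or_ge N h with h4 | h4
    · have h5 := ih (h - 1) (by omega)
      have h6 : (0 : ℝ) < (h : ℝ) ^ 2 := by
        have : (0 : ℝ) < h := by exact_mod_cast (by omega : 0 < h)
        positivity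
      have h7 := mul_pos h6 h5
      have h8 : 0 ≤ (t + 2 * h) * Z t N h := by positivity
      linarith
    · have h5 := ih h h4
      have h6 : 0 < (t + 2 * (h : ℝ)) := by positivity
      have h7 := mul_pos h6 h5
      have h8 : 0 ≤ (h : ℝ) ^ 2 * Z t N (h - 1) := by positivity
      linarith

/-- every open stub is closed at the next site with probability `1 / (N + 1)` -/
theorem Z_close (t : ℝ) (N : ℕ) : ∀ h, Z t (N + 1) (h + 1) =
    (N + 1) * (Z t N (h + 1) + (h + 1) * Z t N h) := by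
  induction N with
  | zero =>
    intro h
    rw [Z_succ, Z_zero_pos t (Nat.succ_ne_zero h), Z_zero_pos t (by omega : h + 1 + 1 ≠ 0)]
    rcases Nat.eq_zero_or_pos h with rfl | h0
    · simp [Z_zero_zero]
    · rw [show h + 1 - 1 = h from rfl, Z_zero_pos t (by omega)]
      simp
  | succ N ih =>
    intro h
    rcases Nat.eq_zero_or_pos h with rfl | h0
    · have e1 := ih 0
      have e2 := ih 1
      have r1 := Z_succ t N 1
      have r0 := Z_succ t N 0
      rw [Z_succ t (N + 1) (0 + 1)]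
      simp only [Nat.cast_zero, zero_add, Nat.cast_one, Nat.sub_self, mul_one, one_pow, one_mul,
        mul_zero, add_zero, Nat.cast_add, ne_eq, OfNat.ofNat_ne_zero, not_false_eq_true, zero_pow,
        zero_mul] at e1 e2 r1 r0 ⊢
      norm_num at e2 r1 r0 ⊢
      rw [e1] at r1
      rw [e1, e2, r0]
      linear_combination (-((N : ℝ) + 1)) * r1
    · obtain ⟨k, rfl⟩ : ∃ k, h = k + 1 := ⟨h - 1, by omega⟩
      have e2 := ih (k + 1)
      have e3 := ih (k + 1 + 1)
      have e1 := ih k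
      have r2 := Z_succ t N (k + 1 + 1)
      have r1 := Z_succ t N (k + 1)
      rw [Z_succ t (N + 1) (k + 1 + 1)]
      simp only [Nat.add_sub_cancel, Nat.cast_add, Nat.cast_one] at e1 e2 e3 r1 r2 ⊢
      have hz2 : Z t (N + 1) (k + 1 + 1) = (t + 2 * ((k : ℝ) + 1 + 1)) * Z t N (k + 1 + 1)
        + ((k : ℝ) + 1 + 1) ^ 2 * Z t N (k + 1) + Z t N (k + 1 + 1 + 1) := r2
      have hz1 : Z t (N + 1) (k + 1) = (t + 2 * ((k : ℝ) + 1)) * Z t N (k + 1)
        + ((k : ℝ) + 1) ^ 2 * Z t N k + Z t N (k + 1 + 1) := r1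
      rw [e3, e2, e1]
      rw [e2] at hz2
      rw [e1] at hz1
      linear_combination (-((N : ℝ) + 1)) * hz2 - ((N : ℝ) + 1) * ((k : ℝ) + 1 + 1) * hz1

/-- `Z N (h+1) ≤ (N - h) Z N h` -/
theorem Z_c2 {t : ℝ} (ht : 1 ≤ t) (N : ℕ) : ∀ h, Z t N (h + 1) ≤ ((N : ℝ) - h) * Z t N h := by
  have ht0 : 0 ≤ t := by linarith
  induction N with
  | zero =>
    intro h
    rw [Z_zero_pos t (Nat.succ_ne_zero h)]
    rcases Nat.eq_zero_or_pos h with rfl | h0
    · simp
    · rw [Z_zero_pos t (by omega)]; simp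
  | succ N ih =>
    intro h
    rcases Nat.eq_zero_or_pos h with rfl | h0
    · have e1 := Z_close t N 0
      have r0 := Z_succ t N 0
      simp only [Nat.cast_zero, zero_add, one_mul, mul_zero, add_zero] at e1 r0
      norm_num at r0
      rw [e1, r0]
      have h1 := Z_nonneg ht0 N 0
      push_cast
      have h2 : (0 : ℝ) ≤ N := Nat.cast_nonneg N
      have h3 : Z t N 0 ≤ t * Z t N 0 := le_mul_of_one_le_left h1 ht
      simp only [sub_zero]
      have h4 : ((N : ℝ) + 1) * (Z t N 1 + Z t N 0) ≤ ((N : ℝ) + 1) * (t * Z t N 0 + Z t N 1) :=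
        mul_le_mul_of_nonneg_left (by linarith) (by linarith)
      exact h4
    · obtain ⟨k, rfl⟩ : ∃ k, h = k + 1 := ⟨h - 1, by omega⟩
      rw [Z_close t N (k + 1), Z_close t N k]
      have e2 := ih (k + 1)
      have e1 := ih k
      push_cast at e1 e2 ⊢
      have h1 := Z_nonneg ht0 N k
      have h2 := Z_nonneg ht0 N (k + 1)
      have hN : (0 : ℝ) ≤ N := Nat.cast_nonneg N
      have hk : (0 : ℝ) ≤ k := Nat.cast_nonneg k
      have h3 : ((k : ℝ) + 1) * Z t N (k + 1) ≤ ((k : ℝ) + 1) * (((N : ℝ) - k) * Z t N k) :=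
        mul_le_mul_of_nonneg_left e1 (by linarith)
      have h4 : Z t N (k + 1 + 1) + ((k : ℝ) + 1 + 1) * Z t N (k + 1) ≤
          ((N : ℝ) - k) * (Z t N (k + 1) + ((k : ℝ) + 1) * Z t N k) := by
        nlinarith
      have h5 := mul_le_mul_of_nonneg_left h4 (by linarith : (0 : ℝ) ≤ (N : ℝ) + 1)
      have h6 : ((N : ℝ) + 1 - (k + 1)) = (N : ℝ) - k := by ring
      rw [h6]
      calc ((N : ℝ) + 1) * (Z t N (k + 1 + 1) + ((k : ℝ) + 1 + 1) * Z t N (k + 1))
          ≤ ((N : ℝ) + 1) * (((N : ℝ) - k) * (Z t N (k + 1) + ((k : ℝ) + 1) * Z t N k)) := h5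
        _ = _ := by ring

/-- `(h + 1) Z M h ≤ (h + t) Z M (h + 1)` -/
theorem Z_c1 {t : ℝ} (ht : 1 ≤ t) (M : ℕ) : ∀ h, h + 1 ≤ M →
    ((h : ℝ) + 1) * Z t M h ≤ ((h : ℝ) + t) * Z t M (h + 1) := by
  have ht0 : 0 ≤ t := by linarith
  induction M with
  | zero => intro h hh; omega
  | succ M ih =>
    intro h hh
    have hM : (0 : ℝ) ≤ M := Nat.cast_nonneg M
    rcases Nat.eq_zero_or_pos h with rfl | h0
    · have e1 := Z_close t M 0
      have r0 := Z_succ t M 0
      simp only [Nat.cast_zero, zero_add, one_mul, mul_zero, add_zero] at e1 r0 ⊢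
      norm_num at r0
      rw [e1, r0]
      have h1 := Z_nonneg ht0 M 0
      have h2 := Z_nonneg ht0 M 1
      have h3 : Z t M 1 ≤ t * Z t M 1 := le_mul_of_one_le_left h2 ht
      have h4 : 0 ≤ t * ((M : ℝ) * (Z t M 1 + Z t M 0)) := by positivity
      have h5 : t * (((M : ℝ) + 1) * (Z t M 1 + Z t M 0)) =
        t * ((M : ℝ) * (Z t M 1 + Z t M 0)) + t * Z t M 1 + t * Z t M 0 := by ring
      rw [h5]
      linarith
    · obtain ⟨k, rfl⟩ : ∃ k, h = k + 1 := ⟨h - 1, by omega⟩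
      rw [Z_close t M (k + 1), Z_close t M k]
      have hk : (0 : ℝ) ≤ k := Nat.cast_nonneg k
      have h1 := Z_nonneg ht0 M k
      have h2 := Z_nonneg ht0 M (k + 1)
      have h3 := Z_nonneg ht0 M (k + 1 + 1)
      have e1 := ih k (by omega)
      push_cast
      have h4 : Z t M (k + 1) + ((k : ℝ) + 1) * Z t M k ≤ ((k : ℝ) + 1 + t) * Z t M (k + 1) := by
        linarith
      have h5 := mul_le_mul_of_nonneg_left h4 (by linarith : (0 : ℝ) ≤ (k : ℝ) + 1 + 1)
      have h6 : 0 ≤ ((k : ℝ) + 1 + t) * Z t M (k + 1 + 1) := by positivity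
      have h7 : ((k : ℝ) + 1 + 1) * (Z t M (k + 1) + ((k : ℝ) + 1) * Z t M k) ≤
          ((k : ℝ) + 1 + t) * (Z t M (k + 1 + 1) + ((k : ℝ) + 1 + 1) * Z t M (k + 1)) := by
        nlinarith
      have h8 := mul_le_mul_of_nonneg_left h7 (by linarith : (0 : ℝ) ≤ (M : ℝ) + 1)
      calc ((k : ℝ) + 1 + 1) * (((M : ℝ) + 1) * (Z t M (k + 1) + ((k : ℝ) + 1) * Z t M k))
          = ((M : ℝ) + 1) * (((k : ℝ) + 1 + 1) * (Z t M (k + 1) + ((k : ℝ) + 1) * Z t M k)) := by
            ring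
        _ ≤ _ := h8
        _ = _ := by ring

end Pool.Agent.H.MP_f011a7_co.One
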